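import Pool.Agent.N210.JN.Sub

set_option autoImplicit false
set_option linter.unusedSectionVars false

/-!
# From relations to poles at `s = 1`
-/

namespace Pool.Agent.N210.JN

open Complex Filter Topology ComplexConjugate NumberField IsDedekindDomain MeasureTheory
  Pool.Agent.W540.BE Pool.Agent.TH553.RS Pool.Agent.TH553.ST Pool.Agent.H341R2
open scoped Matrix ComplexOrder

section

variable {G : Type} [Group G] [TopologicalSpace G]

/-- sums of irreducible characters -/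
def Dec1 (f : G → ℂ) : Prop := ∃ (J : Type) (_ : Fintype J) (m : J → ℕ)
  (ρ : ∀ j, G →* Matrix.unitaryGroup (Fin (m j)) ℂ),
  (∀ j, Continuous (ρ j) ∧ Schur (ρ j)) ∧ (∀ j, m j ≠ 0) ∧ ∀ g, f g = ∑ j, chi (ρ j) g

theorem Dec1.add {f f' : G → ℂ} (h : Dec1 f) (h' : Dec1 f') : Dec1 fun g => f g + f' g := by
  obtain ⟨J, _, m, ρ, h1, h0, h2⟩ := h
  obtain ⟨J', _, m', ρ', h1', h0', h2'⟩ := h'
  refine ⟨J ⊕ J', inferInstance, Sum.elim m m', fun j => match j with
    | Sum.inl j => ρ j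
    | Sum.inr j => ρ' j, ?_, ?_, fun g => ?_⟩
  · rintro (j | j)
    · exact h1 j
    · exact h1' j
  · rintro (j | j)
    · exact h0 j
    · exact h0' j
  · rw [Fintype.sum_sum_type]
    exact congrArg₂ (· + ·) (h2 g) (h2' g)

/-- **Complete reducibility.** -/
theorem dec1_aux : ∀ (N : ℕ) (ι : Type) [Fintype ι] [DecidableEq ι], Fintype.card ι < N →
    ∀ (π : G →* Matrix.unitaryGroup ι ℂ), Continuous π →
      Dec1 fun g => (π g : Matrix ι ι ℂ).trace := by
  intro N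
  induction N with
  | zero =>
    intro ι _ _ h
    exact absurd h (Nat.not_lt_zero _)
  | succ N ih =>
    intro ι _ _ hcard π hπ
    classical
    by_cases hem0 : Fintype.card ι = 0
    · have : IsEmpty ι := Fintype.card_eq_zero_iff.1 hem0
      refine ⟨Empty, inferInstance, fun e => e.elim, fun e => e.elim, fun e => e.elim,
        fun e => e.elim, fun g => ?_⟩
      simp [Matrix.trace]
    by_cases hS : SchurG π
    · refine ⟨Unit, inferInstance, fun _ => Fintype.card ι, fun _ => ri (Fintype.equivFin ι) π,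
        fun _ => ⟨cont_ri _ hπ, schur_ri _ hS⟩, fun _ => hem0, fun g => ?_⟩
      simp only [Finset.univ_unique, Finset.sum_singleton]
      rw [chi_ri]
    · obtain ⟨H, hH, hHc, hHn⟩ := exists_herm hS
      set u := hH.eigenvectorUnitary with hu
      set lam := hH.eigenvalues with hlam
      have hdiag : (u : Matrix ι ι ℂ)ᴴ * H * (u : Matrix ι ι ℂ) =
          Matrix.diagonal (fun i => (lam i : ℂ)) := by
        have h1 := hH.conjStarAlgAut_star_eigenvectorUnitary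
        rw [Unitary.conjStarAlgAut_star_apply] at h1
        exact h1
      have huu : (u : Matrix ι ι ℂ) * (u : Matrix ι ι ℂ)ᴴ = 1 := Matrix.mem_unitaryGroup_iff.1 u.2
      have hcb : ∀ g, (cb u π g : Matrix ι ι ℂ) =
          (u : Matrix ι ι ℂ)ᴴ * (π g : Matrix ι ι ℂ) * (u : Matrix ι ι ℂ) := by
        intro g
        change ((u⁻¹ * π g * u : Matrix.unitaryGroup ι ℂ) : Matrix ι ι ℂ) = _
        rw [← Unitary.star_eq_inv]
        rfl
      have hconj : ∀ X Y : Matrix ι ι ℂ, ((u : Matrix ι ι ℂ)ᴴ * X * (u : Matrix ι ι ℂ)) *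
          ((u : Matrix ι ι ℂ)ᴴ * Y * (u : Matrix ι ι ℂ)) =
          (u : Matrix ι ι ℂ)ᴴ * (X * Y) * (u : Matrix ι ι ℂ) := by
        intro X Y
        calc ((u : Matrix ι ι ℂ)ᴴ * X * (u : Matrix ι ι ℂ)) *
            ((u : Matrix ι ι ℂ)ᴴ * Y * (u : Matrix ι ι ℂ)) =
            (u : Matrix ι ι ℂ)ᴴ * X * ((u : Matrix ι ι ℂ) * (u : Matrix ι ι ℂ)ᴴ) * Y *
              (u : Matrix ι ι ℂ) := by simp only [Matrix.mul_assoc]
          _ = _ := by
            rw [huu, Matrix.mul_one]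
            simp only [Matrix.mul_assoc]
      -- two different eigenvalues
      have hne : ∃ i₀ j₀, lam i₀ ≠ lam j₀ := by
        by_contra hcon
        push Not at hcon
        by_cases hem : Nonempty ι
        · obtain ⟨i₀⟩ := hem
          refine hHn (lam i₀ : ℂ) ?_
          have h1 : Matrix.diagonal (fun i => (lam i : ℂ)) = (lam i₀ : ℂ) • (1 : Matrix ι ι ℂ) := by
            ext i j
            rw [Matrix.diagonal_apply, Matrix.smul_apply, Matrix.one_apply, hcon i i₀]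
            split_ifs <;> simp
          rw [h1] at hdiag
          calc H = ((u : Matrix ι ι ℂ) * (u : Matrix ι ι ℂ)ᴴ) * H *
                ((u : Matrix ι ι ℂ) * (u : Matrix ι ι ℂ)ᴴ) := by rw [huu]; simp
            _ = (u : Matrix ι ι ℂ) * ((u : Matrix ι ι ℂ)ᴴ * H * (u : Matrix ι ι ℂ)) *
                (u : Matrix ι ι ℂ)ᴴ := by simp only [Matrix.mul_assoc]
            _ = _ := by
              rw [hdiag, Matrix.mul_smul, Matrix.mul_one, Matrix.smul_mul, huu]
        · rw [not_nonempty_iff] at hem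
          exact hHn 0 (by
            ext i
            exact (hem.false i).elim)
      obtain ⟨i₀, j₀, hij⟩ := hne
      set p : ι → Prop := fun i => lam i = lam i₀ with hp
      have hcomm : ∀ g i j, lam i ≠ lam j → (cb u π g : Matrix ι ι ℂ) i j = 0 := by
        intro g i j hne
        have h1 : (cb u π g : Matrix ι ι ℂ) * Matrix.diagonal (fun i => (lam i : ℂ)) =
            Matrix.diagonal (fun i => (lam i : ℂ)) * (cb u π g : Matrix ι ι ℂ) := by
          rw [hcb, ← hdiag, hconj, hconj, hHc]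
        have h2 := congrFun (congrFun h1 i) j
        rw [Matrix.mul_diagonal, Matrix.diagonal_mul] at h2
        have h3 : ((lam i : ℂ) - (lam j : ℂ)) * (cb u π g : Matrix ι ι ℂ) i j = 0 := by
          linear_combination -h2
        rcases mul_eq_zero.1 h3 with h4 | h4
        · exfalso
          apply hne
          have : (lam i : ℂ) = (lam j : ℂ) := by linear_combination h4
          exact_mod_cast this
        · exact h4
      have hb : ∀ g i j, ¬ (p i ↔ p j) → (cb u π g : Matrix ι ι ℂ) i j = 0 := by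
        intro g i j hn
        refine hcomm g i j fun h => hn ?_
        rw [hp]
        simp only
        rw [h]
      have hb' : ∀ g i j, ¬ (¬ p i ↔ ¬ p j) → (cb u π g : Matrix ι ι ℂ) i j = 0 := by
        intro g i j hn
        exact hb g i j fun h => hn (not_congr h)
      have htr : ∀ g, (π g : Matrix ι ι ℂ).trace = (cb u π g : Matrix ι ι ℂ).trace := by
        intro g
        rw [hcb, Matrix.trace_mul_comm ((u : Matrix ι ι ℂ)ᴴ * (π g : Matrix ι ι ℂ))
          (u : Matrix ι ι ℂ), ← Matrix.mul_assoc, huu, Matrix.one_mul]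
      have hc' := cont_cb u hπ
      have hc1 : Fintype.card {i // p i} < N := by
        have h1 : Fintype.card {i // p i} < Fintype.card ι :=
          Fintype.card_subtype_lt (x := j₀) fun h => hij h.symm
        omega
      have hc2 : Fintype.card {i // ¬ p i} < N := by
        have h1 : Fintype.card {i // ¬ p i} < Fintype.card ι :=
          Fintype.card_subtype_lt (x := i₀) fun h => h rfl
        omega
      have d1 := ih {i // p i} hc1 (bl p (cb u π) hb) (cont_bl p hb hc')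
      have d2 := ih {i // ¬ p i} hc2 (bl (fun i => ¬ p i) (cb u π) hb')
        (cont_bl (fun i => ¬ p i) hb' hc')
      have e : (fun g => (π g : Matrix ι ι ℂ).trace) = fun g =>
          (bl p (cb u π) hb g : Matrix {i // p i} {i // p i} ℂ).trace +
          (bl (fun i => ¬ p i) (cb u π) hb' g : Matrix {i // ¬ p i} {i // ¬ p i} ℂ).trace := by
        funext g
        rw [htr]
        unfold Matrix.trace
        simp only [Matrix.diag_apply]
        rw [← Fintype.sum_subtype_add_sum_subtype p]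
        rfl
      rw [e]
      exact d1.add d2

/-- the square of the absolute value of a character is a sum of irreducible characters -/
theorem dec1_sq {n : ℕ} {π : G →* Matrix.unitaryGroup (Fin n) ℂ} (hc : Continuous π) :
    Dec1 fun g => ((‖chi π g‖ ^ 2 : ℝ) : ℂ) := by
  have hcj : Continuous (cj π) :=
    Continuous.subtype_mk ((continuous_subtype_val.comp hc).matrix_map Complex.continuous_conj) _
  have htp : Continuous (tp π (cj π)) := by
    refine Continuous.subtype_mk ?_ _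
    refine continuous_matrix fun i j => ?_
    exact ((continuous_subtype_val.comp hc).matrix_elem i.1 j.1).mul
      ((continuous_subtype_val.comp hcj).matrix_elem i.2 j.2)
  have h1 := dec1_aux (Fintype.card (Fin n × Fin n) + 1) (Fin n × Fin n) (Nat.lt_succ_self _)
    (tp π (cj π)) htp
  have e : (fun g => (tp π (cj π) g : Matrix (Fin n × Fin n) (Fin n × Fin n) ℂ).trace) =
      fun g => ((‖chi π g‖ ^ 2 : ℝ) : ℂ) := by
    funext g
    change (Matrix.kroneckerMap (· * ·) (π g : Matrix (Fin n) (Fin n) ℂ)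
      (cj π g : Matrix (Fin n) (Fin n) ℂ)).trace = _
    have h2 : (Matrix.kroneckerMap (· * ·) (π g : Matrix (Fin n) (Fin n) ℂ)
      (cj π g : Matrix (Fin n) (Fin n) ℂ)).trace = (π g : Matrix (Fin n) (Fin n) ℂ).trace *
        (cj π g : Matrix (Fin n) (Fin n) ℂ).trace := Matrix.trace_kronecker _ _
    rw [h2, cj_val]
    have h3 : ((π g : Matrix (Fin n) (Fin n) ℂ).map conj).trace = conj (chi π g) := by
      unfold chi Matrix.trace
      rw [map_sum]
      rfl
    rw [h3]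
    change chi π g * conj (chi π g) = _
    rw [Complex.mul_conj, Complex.normSq_eq_norm_sq]
  rw [e] at h1
  exact h1

end

section

variable {H : Type} [Group H] [TopologicalSpace H] [IsTopologicalGroup H] [CompactSpace H]
  [MeasurableSpace H] [BorelSpace H] {μ : Measure H} [IsProbabilityMeasure μ] [μ.IsHaarMeasure]
  {n : ℕ} {π : H →* Matrix.unitaryGroup (Fin n) ℂ}

/-- the fourth moment of an irreducible character of degree at least two -/
theorem four_gt (hc : Continuous π) (hs : Schur π) (hn : 2 ≤ n) :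
    1 < ∫ g, ‖chi π g‖ ^ 2 * ‖chi π g‖ ^ 2 ∂μ := by
  have h1 := int_sq (μ := μ) hc hs (by omega)
  have hcc : Continuous fun g => ‖chi π g‖ ^ 2 := (cont_chi hc).norm.pow 2
  have hA : Integrable (fun g => ‖chi π g‖ ^ 2 * ‖chi π g‖ ^ 2) μ := intg (hcc.mul hcc)
  have hB : Integrable (fun g => 2 * ‖chi π g‖ ^ 2) μ := intg (continuous_const.mul hcc)
  have e : (fun g => (‖chi π g‖ ^ 2 - 1) ^ 2) =
      fun g => (‖chi π g‖ ^ 2 * ‖chi π g‖ ^ 2 - 2 * ‖chi π g‖ ^ 2) + 1 := by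
    funext g
    ring
  have e1 : ∫ g, (‖chi π g‖ ^ 2 * ‖chi π g‖ ^ 2 - 2 * ‖chi π g‖ ^ 2) + 1 ∂μ =
      (∫ g, (‖chi π g‖ ^ 2 * ‖chi π g‖ ^ 2 - 2 * ‖chi π g‖ ^ 2) ∂μ) + ∫ _, (1 : ℝ) ∂μ :=
    integral_add (hA.sub hB) (integrable_const 1)
  have e2 : ∫ g, (‖chi π g‖ ^ 2 * ‖chi π g‖ ^ 2 - 2 * ‖chi π g‖ ^ 2) ∂μ =
      (∫ g, ‖chi π g‖ ^ 2 * ‖chi π g‖ ^ 2 ∂μ) - ∫ g, 2 * ‖chi π g‖ ^ 2 ∂μ :=
    integral_sub hA hB
  have h3 := int_pos (μ := μ) (f := fun g => (‖chi π g‖ ^ 2 - 1) ^ 2)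
    ((hcc.sub continuous_const).pow 2) (fun g => sq_nonneg _) (g₀ := 1) (by
      rw [chi_one, Complex.norm_natCast]
      have h5 : (2 : ℝ) ≤ n := by exact_mod_cast hn
      have h6 : 0 < (n : ℝ) ^ 2 - 1 := by nlinarith
      positivity)
  rw [e, e1, e2, integral_const_mul, h1] at h3
  simp at h3
  linarith

end

section

variable {K : Type} [Field K] [NumberField K]
variable {ι : Type} [Fintype ι] [DecidableEq ι] {G : ι → Type} [∀ i, Group (G i)]
  [∀ i, TopologicalSpace (G i)] [∀ i, IsTopologicalGroup (G i)] [∀ i, CompactSpace (G i)]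
  [∀ i, T2Space (G i)] [∀ i, SecondCountableTopology (G i)] [∀ i, MeasurableSpace (G i)]
  [∀ i, BorelSpace (G i)] {μ : ∀ i, Measure (G i)} [∀ i, IsProbabilityMeasure (μ i)]
  [∀ i, (μ i).IsHaarMeasure] {x : ∀ i, HeightOneSpectrum (𝓞 K) → G i}

theorem M_re {i : ι} (hx : Law (x i) (μ i)) {n : ℕ} {π : G i →* Matrix.unitaryGroup (Fin n) ℂ}
    (hc : Continuous π) {U : Ultrafilter ℝ} (hU : (U : Filter ℝ) ≤ 𝓝[>] 0) :
    (M (nm K) U fun v => (chi π (x i v)).re) = (∫ g, chi π g ∂(μ i)).re := by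
  rw [M_law hx hU (f := fun g => (chi π g).re) (Complex.continuous_re.comp (cont_chi hc))
    fun g h => by rw [chi_cls]]
  exact integral_re (intg (cont_chi hc))

/-- **From a relation to a positive correlation.** -/
theorem upgrade (hx : ∀ i, Law (x i) (μ i)) {i j : ι} {n n' : ℕ}
    {π : G i →* Matrix.unitaryGroup (Fin n) ℂ} {π' : G j →* Matrix.unitaryGroup (Fin n') ℂ}
    (hc : Continuous π) (hs : Schur π) (hc' : Continuous π') (hs' : Schur π') (hn : 2 ≤ n)
    (hn' : 2 ≤ n') {τ r : ℝ} (hr : |r| = 1) {U : Ultrafilter ℝ} (hU : (U : Filter ℝ) ≤ 𝓝[>] 0)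
    (h0 : (M (nm K) U fun v => ‖Dp π π' (x i) (x j) τ r v‖ ^ 2) = 0) :
    ∃ (m m' : ℕ) (σ : G i →* Matrix.unitaryGroup (Fin m) ℂ)
      (σ' : G j →* Matrix.unitaryGroup (Fin m') ℂ), (Continuous σ ∧ Schur σ) ∧
      (Continuous σ' ∧ Schur σ') ∧ m ≠ 0 ∧ m' ≠ 0 ∧ (∃ g, σ g ≠ 1) ∧ (∃ g, σ' g ≠ 1) ∧
      0 < M (nm K) U fun v => (chi σ (x i v) * chi σ' (x j v)).re := by
  classical
  have hN := sysF K
  obtain ⟨J, _, m, ρ, h1, h2, h3⟩ := dec1_sq (G := G i) hc
  obtain ⟨J', _, m', ρ', h1', h2', h3'⟩ := dec1_sq (G := G j) hc'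
  by_contra hcon
  push Not at hcon
  -- the trivial constituents
  have key1 : ∀ a : J, (∀ g, ρ a g = 1) → ∀ g, chi (ρ a) g = 1 := fun a ha g => by
    rw [chi_triv ha, dim_triv (h1 a).2 (h2 a) ha, Nat.cast_one]
  have key1' : ∀ a : J', (∀ g, ρ' a g = 1) → ∀ g, chi (ρ' a) g = 1 := fun a ha g => by
    rw [chi_triv ha, dim_triv (h1' a).2 (h2' a) ha, Nat.cast_one]
  have hcnt : ((Finset.univ.filter fun a : J => ∀ g, ρ a g = 1).card : ℝ) = 1 := by
    have e1 : ∫ g, ((‖chi π g‖ ^ 2 : ℝ) : ℂ) ∂(μ i) = ((1 : ℝ) : ℂ) := by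
      have h0 : ∫ g, ((‖chi π g‖ ^ 2 : ℝ) : ℂ) ∂(μ i) =
        ((∫ g, ‖chi π g‖ ^ 2 ∂(μ i) : ℝ) : ℂ) := integral_ofReal
      rw [h0, int_sq hc hs (by omega)]
    have e2 : ∫ g, ((‖chi π g‖ ^ 2 : ℝ) : ℂ) ∂(μ i) =
        ((Finset.univ.filter fun a : J => ∀ g, ρ a g = 1).card : ℂ) := by
      simp only [h3]
      rw [integral_finsetSum _ fun a _ => intg (cont_chi (h1 a).1), Finset.card_filter]
      push_cast
      refine Finset.sum_congr rfl fun a _ => ?_
      by_cases ha : ∀ g, ρ a g = 1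
      · rw [if_pos ha]
        simp only [key1 a ha]
        simp
      · rw [if_neg ha]
        push Not at ha
        exact int_chi (h1 a).1 (h1 a).2 ha
    rw [e2] at e1
    exact_mod_cast e1
  have hcnt' : ((Finset.univ.filter fun a : J' => ∀ g, ρ' a g = 1).card : ℝ) = 1 := by
    have e1 : ∫ g, ((‖chi π' g‖ ^ 2 : ℝ) : ℂ) ∂(μ j) = ((1 : ℝ) : ℂ) := by
      have h0 : ∫ g, ((‖chi π' g‖ ^ 2 : ℝ) : ℂ) ∂(μ j) =
        ((∫ g, ‖chi π' g‖ ^ 2 ∂(μ j) : ℝ) : ℂ) := integral_ofReal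
      rw [h0, int_sq hc' hs' (by omega)]
    have e2 : ∫ g, ((‖chi π' g‖ ^ 2 : ℝ) : ℂ) ∂(μ j) =
        ((Finset.univ.filter fun a : J' => ∀ g, ρ' a g = 1).card : ℂ) := by
      simp only [h3']
      rw [integral_finsetSum _ fun a _ => intg (cont_chi (h1' a).1), Finset.card_filter]
      push_cast
      refine Finset.sum_congr rfl fun a _ => ?_
      by_cases ha : ∀ g, ρ' a g = 1
      · rw [if_pos ha]
        simp only [key1' a ha]
        simp
      · rw [if_neg ha]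
        push Not at ha
        exact int_chi (h1' a).1 (h1' a).2 ha
    rw [e2] at e1
    exact_mod_cast e1
  -- the terms
  have hterm : ∀ (a : J) (b : J'), (M (nm K) U fun v =>
      (chi (ρ a) (x i v) * chi (ρ' b) (x j v)).re) ≤
      (if ∀ g, ρ a g = 1 then 1 else 0) * (if ∀ g, ρ' b g = 1 then 1 else 0) := by
    intro a b
    by_cases ha : ∀ g, ρ a g = 1
    · by_cases hb : ∀ g, ρ' b g = 1
      · rw [if_pos ha, if_pos hb]
        simp only [key1 a ha, key1' b hb, mul_one, Complex.one_re]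
        exact (M_one hN hU).le
      · rw [if_pos ha, if_neg hb, mul_zero]
        simp only [key1 a ha, one_mul]
        push Not at hb
        rw [M_re (hx j) (h1' b).1 hU, int_chi (h1' b).1 (h1' b).2 hb]
        exact le_rfl
    · by_cases hb : ∀ g, ρ' b g = 1
      · rw [if_neg ha, zero_mul]
        simp only [key1' b hb, mul_one]
        push Not at ha
        rw [M_re (hx i) (h1 a).1 hU, int_chi (h1 a).1 (h1 a).2 ha]
        exact le_rfl
      · rw [if_neg ha, zero_mul]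
        push Not at ha hb
        exact hcon (m a) (m' b) (ρ a) (ρ' b) (h1 a) (h1' b) (h2 a) (h2' b) ha hb
  have hbd : ∀ (a : J) (b : J'), Bd fun v => (chi (ρ a) (x i v) * chi (ρ' b) (x j v)).re :=
    fun a b => (Bc.mul (⟨m a, fun v => norm_chi (ρ a) _⟩ : Bc fun v => chi (ρ a) (x i v))
      (⟨m' b, fun v => norm_chi (ρ' b) _⟩ : Bc fun v => chi (ρ' b) (x j v))).re
  have hsum : (M (nm K) U fun v => ‖chi π' (x j v)‖ ^ 2 * ‖chi π (x i v)‖ ^ 2) ≤ 1 := by
    have e : (fun v => ‖chi π' (x j v)‖ ^ 2 * ‖chi π (x i v)‖ ^ 2) = fun v =>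
        ∑ a, ∑ b, (chi (ρ a) (x i v) * chi (ρ' b) (x j v)).re := by
      funext v
      have e1 : ((‖chi π' (x j v)‖ ^ 2 * ‖chi π (x i v)‖ ^ 2 : ℝ) : ℂ) =
          ∑ a, ∑ b, chi (ρ a) (x i v) * chi (ρ' b) (x j v) := by
        have e3 := h3 (x i v)
        have e4 := h3' (x j v)
        rw [← Finset.sum_mul_sum, ← e3, ← e4]
        push_cast
        ring
      have e2 := congrArg Complex.re e1
      rw [Complex.ofReal_re, Complex.re_sum] at e2
      rw [e2]
      exact Finset.sum_congr rfl fun a _ => Complex.re_sum _ _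
    rw [e, M_sum hN hU _ fun a _ => Bd.sum _ fun b _ => hbd a b]
    have e2 : ∀ a, (M (nm K) U fun v => ∑ b, (chi (ρ a) (x i v) * chi (ρ' b) (x j v)).re) ≤
        ∑ b, (if ∀ g, ρ a g = 1 then (1 : ℝ) else 0) * (if ∀ g, ρ' b g = 1 then 1 else 0) := by
      intro a
      rw [M_sum hN hU _ fun b _ => hbd a b]
      exact Finset.sum_le_sum fun b _ => hterm a b
    refine (Finset.sum_le_sum fun a _ => e2 a).trans (le_of_eq ?_)
    rw [← Finset.sum_mul_sum]
    have e3 : ∑ a : J, (if ∀ g, ρ a g = 1 then (1 : ℝ) else 0) = 1 := by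
      refine Eq.trans ?_ hcnt
      rw [Finset.card_filter]
      push_cast
      rfl
    have e4 : ∑ a : J', (if ∀ g, ρ' a g = 1 then (1 : ℝ) else 0) = 1 := by
      refine Eq.trans ?_ hcnt'
      rw [Finset.card_filter]
      push_cast
      rfl
    rw [e3, e4, one_mul]
  -- the fourth moment
  have hb : Bc fun v => chi π (x i v) := ⟨n, fun v => norm_chi π _⟩
  have hb' : Bc fun v => chi π' (x j v) * ((nm K v : ℕ) : ℂ) ^ (-(τ * I : ℂ)) :=
    ⟨n', fun v => by
      rw [norm_mul, norm_q, mul_one]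
      exact norm_chi π' _⟩
  rw [df_eq] at h0
  have h5 := edge_weight hN hU hb hb' hr h0 (φ := fun v => ‖chi π (x i v)‖ ^ 2) hb.norm.sq
  simp only [norm_mul, norm_q, mul_one] at h5
  have h6 : (M (nm K) U fun v => ‖chi π (x i v)‖ ^ 2 * ‖chi π (x i v)‖ ^ 2) =
      ∫ g, ‖chi π g‖ ^ 2 * ‖chi π g‖ ^ 2 ∂(μ i) :=
    M_law (hx i) hU (f := fun g => ‖chi π g‖ ^ 2 * ‖chi π g‖ ^ 2)
      (((cont_chi hc).norm.pow 2).mul ((cont_chi hc).norm.pow 2)) fun g k => by rw [chi_cls]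
  rw [h6] at h5
  have h7 := four_gt (μ := μ i) hc hs hn
  linarith

/-- the L-functions of pairs have no poles at `s = 1` -/
def NoPole (x : ∀ i, HeightOneSpectrum (𝓞 K) → G i) : Prop :=
  ∀ (n : ι → ℕ) (ρ : ∀ i, G i →* Matrix.unitaryGroup (Fin (n i)) ℂ),
    (∀ i, n i ≠ 0) → (∀ i, Continuous (ρ i) ∧ Schur (ρ i)) → ∀ i j, i ≠ j →
    (∃ g, ρ i g ≠ 1) → (∃ g, ρ j g ≠ 1) → (∀ k, k ≠ i → k ≠ j → ∀ g, ρ k g = 1) →
    ∀ Λ : ℂ → ℂ, MeromorphicAt Λ (1 + (0 : ℝ) * I) →
      (∀ᶠ s in 𝓝 ((1 : ℂ) + (0 : ℝ) * I), (1 : ℝ) < s.re → Λ s = LT ρ x s) →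
      0 ≤ meromorphicOrderAt Λ (1 + (0 : ℝ) * I)

/-- a pair of representations as a tuple -/
theorem tuple {i j : ι} (hij : i ≠ j) {n n' : ℕ}
    {π : G i →* Matrix.unitaryGroup (Fin n) ℂ} {π' : G j →* Matrix.unitaryGroup (Fin n') ℂ}
    (hc : Continuous π ∧ Schur π) (hc' : Continuous π' ∧ Schur π') (hn : n ≠ 0) (hn' : n' ≠ 0)
    (ht : ∃ g, π g ≠ 1) (ht' : ∃ g, π' g ≠ 1) :
    ∃ (m : ι → ℕ) (σ : ∀ k, G k →* Matrix.unitaryGroup (Fin (m k)) ℂ), (∀ k, m k ≠ 0) ∧
      (∀ k, Continuous (σ k) ∧ Schur (σ k)) ∧ (∃ g, σ i g ≠ 1) ∧ (∃ g, σ j g ≠ 1) ∧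
      (∀ k, k ≠ i → k ≠ j → ∀ g, σ k g = 1) ∧
      ∀ v, pc σ x v = chi π (x i v) * chi π' (x j v) := by
  have key : ∀ k : ι, ∃ (m : ℕ) (σ : G k →* Matrix.unitaryGroup (Fin m) ℂ), m ≠ 0 ∧
      (Continuous σ ∧ Schur σ) ∧ (k = i → ∃ g, σ g ≠ 1) ∧ (k = j → ∃ g, σ g ≠ 1) ∧
      (k ≠ i → k ≠ j → ∀ g, σ g = 1) ∧
      ∀ y : ∀ k, G k, (k = i → chi σ (y k) = chi π (y i)) ∧
        (k = j → chi σ (y k) = chi π' (y j)) ∧ (k ≠ i ∧ k ≠ j → chi σ (y k) = 1) := by
    intro k
    by_cases h1 : k = i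
    · subst h1
      exact ⟨n, π, hn, hc, fun _ => ht, fun h => absurd h hij, fun h => absurd rfl h,
        fun y => ⟨fun _ => rfl, fun h => absurd h hij, fun h => absurd rfl h.1⟩⟩
    · by_cases h2 : k = j
      · subst h2
        exact ⟨n', π', hn', hc', fun h => absurd h h1, fun _ => ht', fun _ h => absurd rfl h,
          fun y => ⟨fun h => absurd h h1, fun _ => rfl, fun h => absurd rfl h.2⟩⟩
      · exact ⟨1, 1, one_ne_zero, ⟨continuous_const, schur_one _⟩, fun h => absurd h h1,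
          fun h => absurd h h2, fun _ _ _ => rfl, fun y => ⟨fun h => absurd h h1,
          fun h => absurd h h2, fun _ => chi_triv1 _⟩⟩
  choose m σ h1 h2 h3 h4 h5 h6 using key
  refine ⟨m, σ, h1, h2, h3 i rfl, h4 j rfl, h5, fun v => ?_⟩
  unfold pc
  rw [Finset.prod_eq_mul i j hij (fun k _ hk => (h6 k fun k => x k v).2.2 hk)
    (fun h => absurd (Finset.mem_univ i) h) (fun h => absurd (Finset.mem_univ j) h)]
  rw [(h6 i fun k => x k v).1 rfl, (h6 j fun k => x k v).2.1 rfl]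

/-- the correlation and the order -/
theorem M_order {n : ι → ℕ} {ρ : ∀ i, G i →* Matrix.unitaryGroup (Fin (n i)) ℂ} {τ : ℝ} {m : ℤ}
    (hm : Tendsto (szT ρ x τ) (𝓝[>] 0) (𝓝 (-(m : ℝ)))) {U : Ultrafilter ℝ}
    (hU : (U : Filter ℝ) ≤ 𝓝[>] 0) :
    (M (nm K) U fun v => (pc ρ x v * ((nm K v : ℕ) : ℂ) ^ (-(τ * I : ℂ))).re) = -(m : ℝ) := by
  refine M_eq ?_
  have h1 := ((size_LT ρ x τ).2.mono_left hU).add (hm.mono_left hU)
  rw [zero_add] at h1
  refine h1.congr fun ε => ?_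
  unfold szT
  ring

theorem noPair_of_noPole (hx : ∀ i, Law (x i) (μ i)) (hM : Mero x) (hP : NoPole x) :
    NoPair x := by
  intro i j hij n n' π π' hc hs hc' hs' hn hn' τ r hr hnull
  have hN := sysF K
  obtain ⟨V, hV⟩ := Ultrafilter.exists_le (𝓝[>] (0 : ℝ))
  have hDb : Bc (Dp π π' (x i) (x j) τ r) := by
    rw [df_eq]
    exact Bc.df ⟨n, fun v => norm_chi π _⟩ ⟨n', fun v => by
      rw [norm_mul, norm_q, mul_one]
      exact norm_chi π' _⟩ r
  have h0 := M_of_null hDb hnull hV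
  obtain ⟨m, m', σ, σ', h1, h2, h3, h4, h5, h6, h7⟩ :=
    upgrade hx hc hs hc' hs' hn hn' hr hV h0
  obtain ⟨k, ρ, g1, g2, g3, g4, g5, g6⟩ := tuple (x := x) hij h1 h2 h3 h4 h5 h6
  obtain ⟨Λ, h8, h9⟩ := hM k ρ g1 g2 ⟨i, j, hij, g3, g4⟩ 0
  obtain ⟨o, h10, h11⟩ := order_LT h8 h9
  have h12 := M_order h11 hV
  have e : (fun v => (pc ρ x v * ((nm K v : ℕ) : ℂ) ^ (-(((0 : ℝ) : ℂ) * I))).re) = fun v =>
      (chi σ (x i v) * chi σ' (x j v)).re := by
    funext v
    rw [g6]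
    simp
  rw [e] at h12
  rw [h12] at h7
  have h13 := hP k ρ g1 g2 i j hij g3 g4 g5 Λ h8 h9
  rw [h10] at h13
  have h14 : (0 : ℤ) ≤ o := by exact_mod_cast h13
  have h15 : (0 : ℝ) ≤ o := by exact_mod_cast h14
  linarith

theorem noPole_of (h : PC μ x Finset.univ) : NoPole x := by
  intro n ρ hn hρ i j hij hi hj hk Λ h1 h2
  obtain ⟨V, hV⟩ := Ultrafilter.exists_le (𝓝[>] (0 : ℝ))
  obtain ⟨m, h3, h4⟩ := order_LT h1 h2
  have h5 := M_order h4 hV
  have h6 := h n ρ hρ fun k hk => absurd (Finset.mem_univ k) hk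
  have h7 : ∏ i, ∫ g, chi (ρ i) g ∂(μ i) = 0 :=
    Finset.prod_eq_zero (Finset.mem_univ i) (int_chi (hρ i).1 (hρ i).2 hi)
  rw [h7] at h6
  have hb : Bc fun v => pc ρ x v := ⟨_, norm_pc ρ x⟩
  rw [M_height hV hb h6 0] at h5
  have h8 : m = 0 := by
    have : (m : ℝ) = 0 := by linarith
    exact_mod_cast this
  rw [h3, h8]
  exact le_rfl

end

end Pool.Agent.N210.JN
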