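import Pool.Agent.N210.JN.Main

set_option autoImplicit false
set_option linter.unusedSectionVars false

/-!
# The converse: joint laws exclude relations
-/

namespace Pool.Agent.N210.JN

open Complex Filter Topology ComplexConjugate NumberField IsDedekindDomain MeasureTheory
  Pool.Agent.W540.BE Pool.Agent.TH553.RS Pool.Agent.TH553.ST Pool.Agent.H341R2

section

variable {K : Type} [Field K] [NumberField K]
variable {ι : Type} [Fintype ι] [DecidableEq ι] {G : ι → Type} [∀ i, Group (G i)]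
  [∀ i, TopologicalSpace (G i)] [∀ i, IsTopologicalGroup (G i)] [∀ i, CompactSpace (G i)]
  [∀ i, T2Space (G i)] [∀ i, SecondCountableTopology (G i)] [∀ i, MeasurableSpace (G i)]
  [∀ i, BorelSpace (G i)] {μ : ∀ i, Measure (G i)} [∀ i, IsProbabilityMeasure (μ i)]
  [∀ i, (μ i).IsHaarMeasure] {x : ∀ i, HeightOneSpectrum (𝓞 K) → G i}

/-- the joint law -/
def JL (μ : ∀ i, Measure (G i)) (x : ∀ i, HeightOneSpectrum (𝓞 K) → G i) : Prop :=
  ∀ F : (∀ i, G i) → ℂ, Continuous F → (∀ g k, F (k * g * k⁻¹) = F g) →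
    Tendsto (mn fun v => F fun i => x i v) atTop (𝓝 (∫ p, F p ∂(Measure.pi μ)))

/-- the joint law of two families -/
def PL (μ : ∀ i, Measure (G i)) (x : ∀ i, HeightOneSpectrum (𝓞 K) → G i) (i j : ι) : Prop :=
  ∀ F : G i × G j → ℂ, Continuous F → (∀ g k, F (k * g * k⁻¹) = F g) →
    Tendsto (mn fun v => F (x i v, x j v)) atTop (𝓝 (∫ p, F p ∂((μ i).prod (μ j))))

theorem joint_of_PC (h : PC μ x Finset.univ) : JL μ x := fun F hF hcl =>
  h.law hF hcl fun p q hpq => by rw [funext fun i => hpq i (Finset.mem_univ i)]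

theorem PC_of_joint (h : JL μ x) : PC μ x Finset.univ := by
  intro n ρ hρ _
  have h1 := h (fun p => ∏ i, chi (ρ i) (p i)) (cont_pc fun i => (hρ i).1) fun g k =>
    Finset.prod_congr rfl fun i _ => chi_cls (ρ i) (g i) (k i)
  rw [integral_fintype_prod_eq_prod (μ := μ) (𝕜 := ℂ) fun i g => chi (ρ i) g] at h1
  exact h1

/-- two characters -/
theorem PC_pair (h : PC μ x Finset.univ) {i j : ι} (hij : i ≠ j) {n n' : ℕ}
    {π : G i →* Matrix.unitaryGroup (Fin n) ℂ} {π' : G j →* Matrix.unitaryGroup (Fin n') ℂ}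
    (hc : Continuous π) (hs : Schur π) (hc' : Continuous π') (hs' : Schur π') :
    Tendsto (mn fun v => chi π (x i v) * chi π' (x j v)) atTop
      (𝓝 ((∫ g, chi π g ∂(μ i)) * ∫ g, chi π' g ∂(μ j))) := by
  have key : ∀ k : ι, ∃ (m : ℕ) (σ : G k →* Matrix.unitaryGroup (Fin m) ℂ), Continuous σ ∧
      Schur σ ∧ (∀ y : ∀ k, G k, (k = i → chi σ (y k) = chi π (y i)) ∧
        (k = j → chi σ (y k) = chi π' (y j)) ∧ (k ≠ i ∧ k ≠ j → chi σ (y k) = 1)) ∧
      (k = i → ∫ g, chi σ g ∂(μ k) = ∫ g, chi π g ∂(μ i)) ∧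
      (k = j → ∫ g, chi σ g ∂(μ k) = ∫ g, chi π' g ∂(μ j)) ∧
      (k ≠ i ∧ k ≠ j → ∫ g, chi σ g ∂(μ k) = 1) := by
    intro k
    by_cases h1 : k = i
    · subst h1
      exact ⟨n, π, hc, hs, fun y => ⟨fun _ => rfl, fun h => absurd h hij, fun h => absurd rfl h.1⟩,
        fun _ => rfl, fun h => absurd h hij, fun h => absurd rfl h.1⟩
    · by_cases h2 : k = j
      · subst h2
        exact ⟨n', π', hc', hs', fun y => ⟨fun h => absurd h h1, fun _ => rfl,
          fun h => absurd rfl h.2⟩, fun h => absurd h h1, fun _ => rfl, fun h => absurd rfl h.2⟩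
      · refine ⟨1, 1, continuous_const, schur_one _, fun y => ⟨fun h => absurd h h1,
          fun h => absurd h h2, fun _ => chi_triv1 _⟩, fun h => absurd h h1, fun h => absurd h h2,
          fun _ => ?_⟩
        simp only [chi_triv1]
        simp
  choose m σ h1 h2 h3 h4 h5 h6 using key
  have h7 := h m σ (fun k => ⟨h1 k, h2 k⟩) fun k hk => absurd (Finset.mem_univ k) hk
  have e1 : (fun v => pc σ x v) = fun v => chi π (x i v) * chi π' (x j v) := by
    funext v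
    unfold pc
    rw [Finset.prod_eq_mul i j hij (fun k _ hk => (h3 k fun k => x k v).2.2 hk)
      (fun h => absurd (Finset.mem_univ i) h) (fun h => absurd (Finset.mem_univ j) h)]
    rw [(h3 i fun k => x k v).1 rfl, (h3 j fun k => x k v).2.1 rfl]
  have e2 : ∏ k, ∫ g, chi (σ k) g ∂(μ k) = (∫ g, chi π g ∂(μ i)) * ∫ g, chi π' g ∂(μ j) := by
    rw [Finset.prod_eq_mul i j hij (fun k _ hk => h6 k hk)
      (fun h => absurd (Finset.mem_univ i) h) (fun h => absurd (Finset.mem_univ j) h), h4 i rfl,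
      h5 j rfl]
  rw [e1, e2] at h7
  exact h7

theorem pair_of_PC (h : PC μ x Finset.univ) {i j : ι} (hij : i ≠ j) : PL μ x i j := by
  intro F hF hcl
  refine mn_unif fun ε hε => ?_
  obtain ⟨k, m, m', ρ, ρ', a, h1, h2, h4⟩ := class_dense2 hF
    (fun g g' k k' => hcl (g, g') (k, k')) hε
  refine ⟨fun v => ∑ l, a l * (chi (ρ l) (x i v) * chi (ρ' l) (x j v)),
    ∑ l, a l * ((∫ g, chi (ρ l) g ∂(μ i)) * ∫ g, chi (ρ' l) g ∂(μ j)), fun v => h4 _ _, ?_, ?_⟩
  · have hci : ∀ l, Continuous fun p : G i × G j => a l * (chi (ρ l) p.1 * chi (ρ' l) p.2) :=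
      fun l => continuous_const.mul (((cont_chi (h1 l).1).comp continuous_fst).mul
        ((cont_chi (h2 l).1).comp continuous_snd))
    have hFc : Continuous fun p : G i × G j => ∑ l, a l * (chi (ρ l) p.1 * chi (ρ' l) p.2) :=
      continuous_finsetSum _ fun l _ => hci l
    have h5 : ∫ p, (∑ l, a l * (chi (ρ l) p.1 * chi (ρ' l) p.2)) ∂((μ i).prod (μ j)) =
        ∑ l, a l * ((∫ g, chi (ρ l) g ∂(μ i)) * ∫ g, chi (ρ' l) g ∂(μ j)) := by
      rw [integral_finsetSum _ fun l _ => intg (hci l)]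
      refine Finset.sum_congr rfl fun l _ => ?_
      rw [integral_const_mul, integral_prod_mul]
    rw [← h5, ← integral_sub (intg hFc) (intg hF)]
    refine (norm_integral_le_integral_norm _).trans ?_
    have h6 : ∫ p, ‖(∑ l, a l * (chi (ρ l) p.1 * chi (ρ' l) p.2)) - F p‖ ∂((μ i).prod (μ j)) ≤
        ∫ _, ε ∂((μ i).prod (μ j)) := by
      refine integral_mono ((intg hFc).sub (intg hF)).norm (integrable_const _) fun p => ?_
      simp only
      rw [norm_sub_rev]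
      exact h4 p.1 p.2
    simpa using h6
  · have h5 : Tendsto (fun N => ∑ l, a l * mn (fun v => chi (ρ l) (x i v) * chi (ρ' l) (x j v)) N)
        atTop (𝓝 (∑ l, a l * ((∫ g, chi (ρ l) g ∂(μ i)) * ∫ g, chi (ρ' l) g ∂(μ j)))) :=
      tendsto_finsetSum _ fun l _ => (PC_pair h hij (h1 l).1 (h1 l).2 (h2 l).1 (h2 l).2).const_mul _
    refine h5.congr fun N => ?_
    rw [mn_sum]
    exact Finset.sum_congr rfl fun l _ => (mn_mul _ _ _).symm

/-- the mean of the product of the squares -/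
theorem M_pair {i j : ι} (h : PL μ x i j) {n n' : ℕ}
    {π : G i →* Matrix.unitaryGroup (Fin n) ℂ} {π' : G j →* Matrix.unitaryGroup (Fin n') ℂ}
    (hc : Continuous π) (hs : Schur π) (hn : n ≠ 0) (hc' : Continuous π') (hs' : Schur π')
    (hn' : n' ≠ 0) {U : Ultrafilter ℝ} (hU : (U : Filter ℝ) ≤ 𝓝[>] 0) :
    (M (nm K) U fun v => ‖chi π' (x j v)‖ ^ 2 * ‖chi π (x i v)‖ ^ 2) = 1 := by
  set Fr : G i × G j → ℝ := fun p => ‖chi π p.1‖ ^ 2 * ‖chi π' p.2‖ ^ 2 with hFr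
  have hcF : Continuous Fr := (((cont_chi hc).norm.pow 2).comp continuous_fst).mul
    (((cont_chi hc').norm.pow 2).comp continuous_snd)
  have h1 := h (fun p => ((Fr p : ℝ) : ℂ)) (Complex.continuous_ofReal.comp hcF) (fun g k => by
    have e : Fr (k * g * k⁻¹) = Fr g := by
      rw [hFr]
      change ‖chi π (k.1 * g.1 * k.1⁻¹)‖ ^ 2 * ‖chi π' (k.2 * g.2 * k.2⁻¹)‖ ^ 2 = _
      rw [chi_cls, chi_cls]
    rw [e])
  have h2 : ∫ p, ((Fr p : ℝ) : ℂ) ∂((μ i).prod (μ j)) = ((1 : ℝ) : ℂ) := by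
    have h0 : ∫ p, ((Fr p : ℝ) : ℂ) ∂((μ i).prod (μ j)) =
      ((∫ p, Fr p ∂((μ i).prod (μ j)) : ℝ) : ℂ) := integral_ofReal
    rw [h0]
    congr 1
    rw [hFr, integral_prod_mul (fun g => ‖chi π g‖ ^ 2) (fun g => ‖chi π' g‖ ^ 2),
      int_sq hc hs hn, int_sq hc' hs' hn', mul_one]
  rw [h2] at h1
  have e : (fun v => ‖chi π' (x j v)‖ ^ 2 * ‖chi π (x i v)‖ ^ 2) = fun v => Fr (x i v, x j v) := by
    funext v
    exact mul_comm _ _
  rw [e]
  refine M_of_mn hU ?_ ?_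
  · obtain ⟨C, hC⟩ := (isCompact_univ (X := G i × G j)).exists_bound_of_continuousOn
      hcF.continuousOn
    exact ⟨C, fun v => hC (x i v, x j v) (Set.mem_univ _)⟩
  · have h3 := (Complex.continuous_re.tendsto _).comp h1
    rw [Complex.ofReal_re] at h3
    refine h3.congr fun N => ?_
    simp only [Function.comp]
    rw [re_mn]
    rfl

theorem noPair_of (hx : ∀ i, Law (x i) (μ i)) (h : ∀ i j, i ≠ j → PL μ x i j) : NoPair x := by
  intro i j hij n n' π π' hc hs hc' hs' hn hn' τ r hr hnull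
  have hN := sysF K
  obtain ⟨V, hV⟩ := Ultrafilter.exists_le (𝓝[>] (0 : ℝ))
  have hb : Bc fun v => chi π (x i v) := ⟨n, fun v => norm_chi π _⟩
  have hb' : Bc fun v => chi π' (x j v) * ((nm K v : ℕ) : ℂ) ^ (-(τ * I : ℂ)) :=
    ⟨n', fun v => by
      rw [norm_mul, norm_q, mul_one]
      exact norm_chi π' _⟩
  have h0 := M_of_null (by rw [df_eq]; exact hb.df hb' r) hnull hV
  rw [df_eq] at h0
  have h1 := edge_weight hN hV hb hb' hr h0 (φ := fun v => ‖chi π (x i v)‖ ^ 2) hb.norm.sq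
  simp only [norm_mul, norm_q, mul_one] at h1
  rw [M_pair (h i j hij) hc hs (by omega) hc' hs' (by omega) hV] at h1
  have h2 : (M (nm K) V fun v => ‖chi π (x i v)‖ ^ 2 * ‖chi π (x i v)‖ ^ 2) =
      ∫ g, ‖chi π g‖ ^ 2 * ‖chi π g‖ ^ 2 ∂(μ i) :=
    M_law (hx i) hV (f := fun g => ‖chi π g‖ ^ 2 * ‖chi π g‖ ^ 2)
      (((cont_chi hc).norm.pow 2).mul ((cont_chi hc).norm.pow 2)) fun g k => by rw [chi_cls]
  rw [h2] at h1
  have := dim_one (μ := μ i) hc hs (by omega) h1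
  omega

theorem noAb_of (h : PC μ x Finset.univ) : NoAb x := by
  intro ψ hψ ⟨i, hi⟩ τ r hr hnull
  have hN := sysF K
  obtain ⟨V, hV⟩ := Ultrafilter.exists_le (𝓝[>] (0 : ℝ))
  have hs : ∀ i, Schur (ψ i) := fun i => schur_one _
  have h1 := h (fun _ => 1) ψ (fun i => ⟨hψ i, hs i⟩) fun k hk => absurd (Finset.mem_univ k) hk
  have h2 : ∏ i, ∫ g, chi (ψ i) g ∂(μ i) = 0 :=
    Finset.prod_eq_zero (Finset.mem_univ i) (int_chi (hψ i) (hs i) hi)
  rw [h2] at h1
  have hb : Bc fun v => pc ψ x v := ⟨1, fun v => (norm_pc1 v).le⟩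
  have h3 := M_height hV hb h1 τ
  have hD : Bc fun v => pc ψ x v * ((nm K v : ℕ) : ℂ) ^ (-(τ * I : ℂ)) - r := by
    refine ⟨1 + |r|, fun v => ?_⟩
    refine (norm_sub_le _ _).trans ?_
    rw [norm_mul, norm_q, norm_pc1, mul_one, Complex.norm_real, Real.norm_eq_abs]
  have h4 := M_of_null hD hnull hV
  have h5 := M_dist (t := fun v => pc ψ x v * ((nm K v : ℕ) : ℂ) ^ (-(τ * I : ℂ)))
    (fun v => by rw [norm_mul, norm_q, norm_pc1, mul_one]) r hV
  rw [h4, h3] at h5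
  have h6 : r ^ 2 = 1 := by rw [← sq_abs, hr, one_pow]
  rw [h6] at h5
  norm_num at h5

end

end Pool.Agent.N210.JN
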