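import Pool.Agent.TH553.ST.PW2
import Mathlib.MeasureTheory.Integral.Pi

set_option autoImplicit false
set_option linter.unusedSectionVars false

/-!
# Class functions on a finite product of compact groups
-/

namespace Pool.Agent.N210.JN

open Complex Filter Topology ComplexConjugate MeasureTheory
  Pool.Agent.TH553.ST
open scoped Matrix ComplexOrder Kronecker

section

variable {ι : Type} [Fintype ι] {G : ι → Type} [∀ i, Group (G i)] [∀ i, TopologicalSpace (G i)]

/-- sums of products of matrix coefficients -/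
def CoefN (f : (∀ i, G i) → ℂ) : Prop := ∃ (J : Type) (_ : Fintype J) (c : J → ℂ)
  (φ : J → ∀ i, G i → ℂ), (∀ j i, Coef (φ j i)) ∧ ∀ p, f p = ∑ j, c j * ∏ i, φ j i (p i)

theorem CoefN.add {f f' : (∀ i, G i) → ℂ} (h : CoefN f) (h' : CoefN f') :
    CoefN fun p => f p + f' p := by
  obtain ⟨J, _, c, φ, h1, h3⟩ := h
  obtain ⟨J', _, c', φ', h1', h3'⟩ := h'
  refine ⟨J ⊕ J', inferInstance, Sum.elim c c', Sum.elim φ φ', ?_, fun p => ?_⟩
  · rintro (j | j)
    · exact h1 j
    · exact h1' j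
  · rw [Fintype.sum_sum_type]
    exact congrArg₂ (· + ·) (h3 p) (h3' p)

theorem CoefN.mul {f f' : (∀ i, G i) → ℂ} (h : CoefN f) (h' : CoefN f') :
    CoefN fun p => f p * f' p := by
  obtain ⟨J, _, c, φ, h1, h3⟩ := h
  obtain ⟨J', _, c', φ', h1', h3'⟩ := h'
  refine ⟨J × J', inferInstance, fun j => c j.1 * c' j.2, fun j i g => φ j.1 i g * φ' j.2 i g,
    fun j i => (h1 j.1 i).mul (h1' j.2 i), fun p => ?_⟩
  rw [Fintype.sum_prod_type]
  refine (congrArg₂ (· * ·) (h3 p) (h3' p)).trans ?_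
  simp only
  rw [Finset.sum_mul_sum]
  refine Finset.sum_congr rfl fun i _ => Finset.sum_congr rfl fun j _ => ?_
  rw [Finset.prod_mul_distrib]
  ring

theorem CoefN.const (c : ℂ) : CoefN fun _ : (∀ i, G i) => c :=
  ⟨Unit, inferInstance, fun _ => c, fun _ _ _ => 1, fun _ _ => Coef.const 1, fun p => by simp⟩

theorem CoefN.conj {f : (∀ i, G i) → ℂ} (h : CoefN f) : CoefN fun p => conj (f p) := by
  obtain ⟨J, _, c, φ, h1, h3⟩ := h
  refine ⟨J, inferInstance, fun j => conj (c j), fun j i g => conj (φ j i g),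
    fun j i => (h1 j i).conj, fun p => ?_⟩
  simp only
  rw [h3, map_sum]
  exact Finset.sum_congr rfl fun j _ => by rw [map_mul, map_prod]

/-- the algebra -/
noncomputable def coefAlgN (ι : Type) [Fintype ι] (G : ι → Type) [∀ i, Group (G i)]
    [∀ i, TopologicalSpace (G i)] : StarSubalgebra ℂ C((∀ i, G i), ℂ) where
  carrier := {f | CoefN f}
  mul_mem' := fun {f f'} (h : CoefN f) (h' : CoefN f') => show CoefN _ from h.mul h'
  one_mem' := show CoefN _ from CoefN.const 1
  add_mem' := fun {f f'} (h : CoefN f) (h' : CoefN f') => show CoefN _ from h.add h'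
  zero_mem' := show CoefN _ from CoefN.const 0
  algebraMap_mem' := fun c => show CoefN _ from CoefN.const c
  star_mem' := fun {f} (h : CoefN f) => show CoefN _ from h.conj

theorem coefN_cont {f : (∀ i, G i) → ℂ} (h : CoefN f) : Continuous f := by
  obtain ⟨J, _, c, φ, h1, h3⟩ := h
  have : f = fun p => ∑ j, c j * ∏ i, φ j i (p i) := funext h3
  rw [this]
  exact continuous_finsetSum _ fun j _ => continuous_const.mul
    (continuous_finsetProd _ fun i _ => (coef_cont (h1 j i)).comp (continuous_apply i))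

end

section

variable {ι : Type} [Fintype ι] {G : ι → Type} [∀ i, Group (G i)] [∀ i, TopologicalSpace (G i)]
  [∀ i, IsTopologicalGroup (G i)] [∀ i, CompactSpace (G i)] [∀ i, T2Space (G i)]

theorem coefN_dense {f : (∀ i, G i) → ℂ} (hf : Continuous f) {ε : ℝ} (hε : 0 < ε) :
    ∃ φ : (∀ i, G i) → ℂ, CoefN φ ∧ ∀ p, ‖f p - φ p‖ ≤ ε := by
  classical
  have h1 : (coefAlgN ι G).topologicalClosure = ⊤ := by
    refine ContinuousMap.starSubalgebra_topologicalClosure_eq_top_of_separatesPoints _ ?_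
    intro g h hne
    obtain ⟨i, hi⟩ := Function.ne_iff.1 hne
    obtain ⟨φ, h2, h3⟩ := coef_sep hi
    have e : ∀ p : (∀ i, G i), φ (p i) =
        ∏ k, (Function.update (fun (k : ι) (_ : G k) => (1 : ℂ)) i φ) k (p k) := by
      intro p
      rw [Finset.prod_eq_single i]
      · rw [Function.update_self]
      · intro k _ hk
        rw [Function.update_of_ne hk]
      · intro hi'
        exact absurd (Finset.mem_univ _) hi'
    have h4 : CoefN fun p : (∀ i, G i) => φ (p i) := by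
      refine ⟨Unit, inferInstance, fun _ => 1,
        fun _ => Function.update (fun (k : ι) (_ : G k) => (1 : ℂ)) i φ, ?_, fun p => ?_⟩
      · intro _ k
        beta_reduce
        by_cases hk : k = i
        · subst hk
          rw [Function.update_self]
          exact h2
        · rw [Function.update_of_ne hk]
          exact Coef.const 1
      · simp only [e, one_mul, Finset.univ_unique, Finset.sum_const, Finset.card_singleton,
          one_smul]
    exact ⟨_, ⟨⟨_, coefN_cont h4⟩, h4, rfl⟩, h3⟩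
  have h2 : (⟨f, hf⟩ : C((∀ i, G i), ℂ)) ∈ (coefAlgN ι G).topologicalClosure := by
    rw [h1]
    exact StarSubalgebra.mem_top
  have h3 : (⟨f, hf⟩ : C((∀ i, G i), ℂ)) ∈ closure ((coefAlgN ι G :
      StarSubalgebra ℂ C((∀ i, G i), ℂ)) : Set C((∀ i, G i), ℂ)) := h2
  obtain ⟨φ, h4, h5⟩ := Metric.mem_closure_iff.1 h3 ε hε
  refine ⟨φ, h4, fun g => ?_⟩
  rw [dist_eq_norm] at h5
  exact (ContinuousMap.norm_coe_le_norm ((⟨f, hf⟩ : C((∀ i, G i), ℂ)) - φ) g).trans h5.le

variable [∀ i, SecondCountableTopology (G i)] [∀ i, MeasurableSpace (G i)]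
  [∀ i, BorelSpace (G i)] {μ : ∀ i, Measure (G i)} [∀ i, IsProbabilityMeasure (μ i)]
  [∀ i, (μ i).IsHaarMeasure]

/-- the average over the conjugates -/
noncomputable def cavN (μ : ∀ i, Measure (G i)) (f : (∀ i, G i) → ℂ) (p : ∀ i, G i) : ℂ :=
  ∫ h, f (h⁻¹ * p * h) ∂(Measure.pi μ)

theorem contN {f : (∀ i, G i) → ℂ} (hf : Continuous f) (p : ∀ i, G i) :
    Continuous fun h => f (h⁻¹ * p * h) :=
  hf.comp ((continuous_inv.mul continuous_const).mul continuous_id)

theorem cavN_coef {f : (∀ i, G i) → ℂ} {J : Type} [Fintype J] {c : J → ℂ}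
    {φ : J → ∀ i, G i → ℂ} (h1 : ∀ j i, Coef (φ j i))
    (h3 : ∀ p, f p = ∑ j, c j * ∏ i, φ j i (p i)) (p : ∀ i, G i) :
    cavN μ f p = ∑ j, c j * ∏ i, cav (μ i) (φ j i) (p i) := by
  unfold cavN
  simp only [h3]
  have hc : ∀ j, Continuous fun h : (∀ i, G i) => ∏ i, φ j i ((h⁻¹ * p * h) i) := fun j =>
    contN (f := fun q => ∏ i, φ j i (q i)) (continuous_finsetProd _ fun i _ =>
      (coef_cont (h1 j i)).comp (continuous_apply i)) p
  rw [integral_finsetSum _ fun j _ => (intg (hc j)).const_mul _]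
  refine Finset.sum_congr rfl fun j _ => ?_
  rw [integral_const_mul]
  congr 1
  have h4 := integral_fintype_prod_eq_prod (μ := μ) (𝕜 := ℂ)
    (fun i (g : G i) => φ j i (g⁻¹ * p i * g))
  exact h4

theorem cavN_class {f : (∀ i, G i) → ℂ} (h : ∀ g k, f (k * g * k⁻¹) = f g) (p : ∀ i, G i) :
    cavN μ f p = f p := by
  unfold cavN
  have h1 : ∀ k, f (k⁻¹ * p * k) = f p := by
    intro k
    have := h p k⁻¹
    rwa [inv_inv] at this
  simp only [h1]
  simp

/-- **Products of irreducible characters span a dense space of class functions.** -/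
theorem class_denseN {f : (∀ i, G i) → ℂ} (hf : Continuous f)
    (hcl : ∀ g k, f (k * g * k⁻¹) = f g) {ε : ℝ} (hε : 0 < ε) :
    ∃ (J : Type) (_ : Fintype J) (m : J → ι → ℕ)
      (ρ : ∀ j i, G i →* Matrix.unitaryGroup (Fin (m j i)) ℂ) (a : J → ℂ),
      (∀ j i, Continuous (ρ j i) ∧ Schur (ρ j i)) ∧
      ∀ p : ∀ i, G i, ‖f p - ∑ j, a j * ∏ i, chi (ρ j i) (p i)‖ ≤ ε := by
  classical
  obtain ⟨φ₀, h1, h2⟩ := coefN_dense hf hε
  let _ : ∀ i, MeasurableSpace (G i) := fun i => borel (G i)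
  have _ : ∀ i, BorelSpace (G i) := fun i => ⟨rfl⟩
  set ν : ∀ i, Measure (G i) := fun i => Measure.haarMeasure ⊤ with hν
  have hν1 : ∀ i, IsProbabilityMeasure (ν i) := fun i => ⟨by
    simp only [hν]
    exact Measure.haarMeasure_self⟩
  have hν2 : ∀ i, (ν i).IsHaarMeasure := fun i => by
    simp only [hν]
    infer_instance
  have hc0 := coefN_cont h1
  obtain ⟨J, _, c, φ, h3, h5⟩ := h1
  have h6 := fun p => cavN_coef (μ := ν) h3 h5 p
  choose J1 i1 m1 ρ1 a1 p1 q1 using fun (j : J) (i : ι) => dec_cav (μ := ν i) (h3 j i)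
  refine ⟨Σ j, ∀ i, J1 j i, inferInstance, fun k i => m1 k.1 i (k.2 i),
    fun k i => ρ1 k.1 i (k.2 i), fun k => c k.1 * ∏ i, a1 k.1 i (k.2 i),
    fun k i => p1 _ _ _, fun p => ?_⟩
  have e1 : ∑ k : (Σ j, ∀ i, J1 j i), (c k.1 * ∏ i, a1 k.1 i (k.2 i)) *
      ∏ i, chi (ρ1 k.1 i (k.2 i)) (p i) = cavN ν φ₀ p := by
    rw [h6, Fintype.sum_sigma]
    refine Finset.sum_congr rfl fun j _ => ?_
    have e2 : ∀ i, cav (ν i) (φ j i) (p i) = ∑ l ∈ (Finset.univ : Finset (J1 j i)),
        a1 j i l * chi (ρ1 j i l) (p i) := fun i => q1 j i (p i)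
    rw [Finset.prod_congr rfl fun i _ => e2 i, Finset.prod_univ_sum, Fintype.piFinset_univ,
      Finset.mul_sum]
    refine Finset.sum_congr rfl fun l _ => ?_
    simp only
    rw [Finset.prod_mul_distrib]
    ring
  rw [e1, ← cavN_class (μ := ν) hcl p]
  unfold cavN
  rw [← integral_sub (intg (contN hf p)) (intg (contN hc0 p))]
  refine (norm_integral_le_integral_norm _).trans ?_
  have h9 : ∫ k, ‖f (k⁻¹ * p * k) - φ₀ (k⁻¹ * p * k)‖ ∂(Measure.pi ν) ≤
      ∫ _, ε ∂(Measure.pi ν) := by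
    refine integral_mono ((intg (contN hf p)).sub (intg (contN hc0 p))).norm
      (integrable_const _) fun k => h2 _
  simpa using h9

end

end Pool.Agent.N210.JN
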