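import Pool.Agent.N210.JN.Back

set_option autoImplicit false
set_option linter.unusedSectionVars false

/-!
# Powers of characters, and relations with a height
-/

namespace Pool.Agent.N210.JN

open Complex Filter Topology ComplexConjugate NumberField IsDedekindDomain MeasureTheory
  Pool.Agent.W540.BE Pool.Agent.TH553.RS Pool.Agent.TH553.ST Pool.Agent.H341R2
open scoped Matrix

section

variable {H : Type} [Group H] [TopologicalSpace H] [IsTopologicalGroup H] [CompactSpace H]
  [MeasurableSpace H] [BorelSpace H] {μ : Measure H} [IsProbabilityMeasure μ] [μ.IsHaarMeasure]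
  {n : ℕ} {π : H →* Matrix.unitaryGroup (Fin n) ℂ}

/-- the mean of a character is a nonnegative real number, positive if there is an invariant
vector -/
theorem int_real (hc : Continuous π) : ∃ c : ℝ, 0 ≤ c ∧ ∫ g, chi π g ∂μ = c ∧
    ∀ w : Fin n → ℂ, w ≠ 0 → (∀ g, (π g : Matrix (Fin n) (Fin n) ℂ) *ᵥ w = w) → 0 < c := by
  set Ψ := mi μ (fun g => (π g : Matrix (Fin n) (Fin n) ℂ)) with hΨ
  have h1 : ∀ h : H, (π h : Matrix (Fin n) (Fin n) ℂ) * Ψ = Ψ := by
    intro h
    rw [hΨ, ← mi_mul (cont_mat hc)]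
    have h2 : (fun g => (π h : Matrix (Fin n) (Fin n) ℂ) * (π g : Matrix (Fin n) (Fin n) ℂ)) =
        fun g => (π (h * g) : Matrix (Fin n) (Fin n) ℂ) := funext fun g => (pi_mul h g).symm
    rw [h2]
    exact mi_left (fun g => (π g : Matrix (Fin n) (Fin n) ℂ)) h
  have h1' : ∀ h : H, Ψᴴ * (π h : Matrix (Fin n) (Fin n) ℂ) = Ψᴴ := by
    intro h
    have h2 := h1 h
    have h3 : (π h : Matrix (Fin n) (Fin n) ℂ)ᴴ * Ψ = Ψ := by
      conv_lhs => rw [← h2]
      rw [← Matrix.mul_assoc, pi_star, Matrix.one_mul]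
    have h4 := congrArg Matrix.conjTranspose h3
    rwa [Matrix.conjTranspose_mul, Matrix.conjTranspose_conjTranspose] at h4
  have h2 : Ψᴴ * Ψ = Ψᴴ := by
    conv_lhs => rw [hΨ]
    rw [← hΨ, ← mi_mul (cont_mat hc)]
    simp only [h1']
    ext k l
    rw [mi_apply]
    simp
  have h3 : Ψ.trace = ∫ g, chi π g ∂μ := by
    rw [hΨ, mi_trace (cont_mat hc)]
    rfl
  have h4 : (Ψᴴ * Ψ).trace = ((∑ i, ∑ j, Complex.normSq (Ψ j i) : ℝ) : ℂ) := by
    unfold Matrix.trace
    push_cast
    refine Finset.sum_congr rfl fun i _ => ?_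
    rw [Matrix.diag_apply, Matrix.mul_apply]
    refine Finset.sum_congr rfl fun j _ => ?_
    rw [Matrix.conjTranspose_apply, Complex.normSq_eq_conj_mul_self]
    rfl
  have hnn : 0 ≤ ∑ i, ∑ j, Complex.normSq (Ψ j i) :=
    Finset.sum_nonneg fun i _ => Finset.sum_nonneg fun j _ => Complex.normSq_nonneg _
  refine ⟨∑ i, ∑ j, Complex.normSq (Ψ j i), hnn, ?_, fun w hw hinv => ?_⟩
  · rw [← h3]
    have h5 : Ψ.trace = conj (Ψᴴ.trace) := by
      rw [Matrix.trace_conjTranspose]
      exact (Complex.conj_conj _).symm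
    rw [h5, ← h2, h4, Complex.conj_ofReal]
  · refine lt_of_le_of_ne hnn fun h0 => hw ?_
    have h5 : ∀ i j, Ψ j i = 0 := by
      intro i j
      have h6 := (Finset.sum_eq_zero_iff_of_nonneg fun i _ => Finset.sum_nonneg fun j _ =>
        Complex.normSq_nonneg (Ψ j i)).1 h0.symm i (Finset.mem_univ i)
      exact Complex.normSq_eq_zero.1 ((Finset.sum_eq_zero_iff_of_nonneg fun j _ =>
        Complex.normSq_nonneg (Ψ j i)).1 h6 j (Finset.mem_univ j))
    have hent : ∀ i j, Continuous fun g => (π g : Matrix (Fin n) (Fin n) ℂ) i j :=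
      fun i j => (cont_mat hc).matrix_elem i j
    have h6 : Ψ *ᵥ w = w := by
      funext k
      rw [Matrix.mulVec, dotProduct]
      have hl : ∀ l, Integrable (fun g => (π g : Matrix (Fin n) (Fin n) ℂ) k l * w l) μ :=
        fun l => intg ((hent k l).mul continuous_const)
      have e1 : ∑ l, Ψ k l * w l =
          ∫ g, ∑ l, (π g : Matrix (Fin n) (Fin n) ℂ) k l * w l ∂μ := by
        rw [integral_finsetSum _ fun l _ => hl l]
        refine Finset.sum_congr rfl fun l _ => ?_
        rw [integral_mul_const, hΨ, mi_apply]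
      rw [e1]
      have e2 : ∀ g, ∑ l, (π g : Matrix (Fin n) (Fin n) ℂ) k l * w l = w k := fun g =>
        congrFun (hinv g) k
      simp only [e2]
      simp
    rw [← h6]
    funext k
    rw [Matrix.mulVec, dotProduct]
    exact Finset.sum_eq_zero fun l _ => by rw [h5 l k, zero_mul]

/-- the powers of a representation -/
noncomputable def pw (π : H →* Matrix.unitaryGroup (Fin n) ℂ) (a : ℕ) :
    H →* Matrix.unitaryGroup (Fin a → Fin n) ℂ where
  toFun g := ⟨tens (ι := Fin a) (n := fun _ => n) fun _ => (π g : Matrix (Fin n) (Fin n) ℂ),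
    tens_unitary fun _ => (π g).2⟩
  map_one' := by
    apply Subtype.ext
    change tens (ι := Fin a) (n := fun _ => n)
      (fun _ => ((π 1 : Matrix.unitaryGroup (Fin n) ℂ) : Matrix (Fin n) (Fin n) ℂ)) = 1
    rw [map_one]
    exact tens_one
  map_mul' g h := by
    apply Subtype.ext
    change tens (ι := Fin a) (n := fun _ => n)
      (fun _ => ((π (g * h) : Matrix.unitaryGroup (Fin n) ℂ) : Matrix (Fin n) (Fin n) ℂ)) =
      tens (ι := Fin a) (n := fun _ => n) (fun _ => (π g : Matrix (Fin n) (Fin n) ℂ)) *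
      tens (ι := Fin a) (n := fun _ => n) (fun _ => (π h : Matrix (Fin n) (Fin n) ℂ))
    rw [tens_mul]
    simp only [pi_mul]

theorem pw_val (π : H →* Matrix.unitaryGroup (Fin n) ℂ) (a : ℕ) (g : H) :
    (pw π a g : Matrix (Fin a → Fin n) (Fin a → Fin n) ℂ) =
      tens (ι := Fin a) (n := fun _ => n) fun _ => (π g : Matrix (Fin n) (Fin n) ℂ) := rfl

theorem pw_trace (π : H →* Matrix.unitaryGroup (Fin n) ℂ) (a : ℕ) (g : H) :
    (pw π a g : Matrix (Fin a → Fin n) (Fin a → Fin n) ℂ).trace = chi π g ^ a := by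
  rw [pw_val, trace_tens, Finset.prod_const, Finset.card_univ, Fintype.card_fin]
  rfl

theorem pw_cont (hc : Continuous π) (a : ℕ) : Continuous (pw π a) := by
  refine Continuous.subtype_mk ?_ _
  refine continuous_matrix fun i j => ?_
  change Continuous fun g => ∏ l, (π g : Matrix (Fin n) (Fin n) ℂ) (i l) (j l)
  exact continuous_finsetProd _ fun k _ => (cont_mat hc).matrix_elem (i k) (j k)

/-- the alternating vector -/
noncomputable def alt (n : ℕ) (b : Fin n → Fin n) : ℂ :=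
  ((1 : Matrix (Fin n) (Fin n) ℂ).submatrix b id).det

theorem alt_inv (A : Matrix (Fin n) (Fin n) ℂ) :
    tens (ι := Fin n) (n := fun _ => n) (fun _ => A) *ᵥ alt n = A.det • alt n := by
  funext a
  rw [Pi.smul_apply, smul_eq_mul]
  have h1 : A.det * alt n a = (A.submatrix a id).det := by
    have h2 : A.submatrix a id = (1 : Matrix (Fin n) (Fin n) ℂ).submatrix a id * A := by
      rw [show A.submatrix a id = ((1 : Matrix (Fin n) (Fin n) ℂ) * A).submatrix a id by
        rw [Matrix.one_mul]]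
      rw [Matrix.submatrix_mul _ _ _ id _ Function.bijective_id]
      rfl
    rw [h2, Matrix.det_mul, mul_comm]
    rfl
  rw [h1]
  have h3 : A.submatrix a id = fun i => ∑ j, A (a i) j • (1 : Matrix (Fin n) (Fin n) ℂ) j := by
    funext i k
    rw [Finset.sum_apply]
    simp [Matrix.one_apply]
  have h4 : (A.submatrix a id).det = Matrix.detRowAlternating.toMultilinearMap
      (fun i => ∑ j, A (a i) j • (1 : Matrix (Fin n) (Fin n) ℂ) j) := by
    rw [h3]
    rfl
  rw [h4, MultilinearMap.map_sum]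
  rw [Matrix.mulVec, dotProduct]
  refine Finset.sum_congr rfl fun b _ => ?_
  rw [MultilinearMap.map_smul_univ]
  rfl

theorem alt_ne : alt n ≠ 0 := by
  intro h
  have h1 := congrFun h id
  unfold alt at h1
  simp at h1

/-- the mean of a power of a character -/
theorem int_pow_real (hc : Continuous π) (a : ℕ) : ∃ c : ℝ, ∫ g, chi π g ^ a ∂μ = c ∧
    ∀ w : (Fin a → Fin n) → ℂ, w ≠ 0 → (∀ g,
      (pw π a g : Matrix (Fin a → Fin n) (Fin a → Fin n) ℂ) *ᵥ w = w) → 0 < c := by
  set e := Fintype.equivFin (Fin a → Fin n) with he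
  obtain ⟨c, -, h2, h3⟩ := int_real (μ := μ) (cont_ri e (pw_cont hc a))
  refine ⟨c, ?_, fun w hw hinv => h3 (w ∘ e.symm) ?_ fun g => ?_⟩
  · rw [← h2]
    simp only [chi_ri, pw_trace]
  · intro h
    apply hw
    funext b
    have := congrFun h (e b)
    simpa using this
  · rw [ri_val, Matrix.submatrix_mulVec_equiv]
    have h4 : (w ∘ ⇑e.symm) ∘ ⇑e.symm.symm = w := by
      funext b
      simp
    rw [h4, hinv g]

/-- some power of a character with determinant one has a positive mean -/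
theorem int_pow_pos (hc : Continuous π)
    (hd : ∀ g, (π g : Matrix (Fin n) (Fin n) ℂ).det = 1) :
    ∃ c : ℝ, ∫ g, chi π g ^ n ∂μ = c ∧ 0 < c := by
  obtain ⟨c, h1, h2⟩ := int_pow_real (μ := μ) hc n
  refine ⟨c, h1, h2 (alt n) alt_ne fun g => ?_⟩
  rw [pw_val, alt_inv, hd, one_smul]

/-- the determinant -/
noncomputable def dt (π : H →* Matrix.unitaryGroup (Fin n) ℂ) :
    H →* Matrix.unitaryGroup (Fin 1) ℂ where
  toFun g := ⟨(π g : Matrix (Fin n) (Fin n) ℂ).det • (1 : Matrix (Fin 1) (Fin 1) ℂ), by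
    rw [Matrix.mem_unitaryGroup_iff, Matrix.star_eq_conjTranspose, Matrix.conjTranspose_smul,
      Matrix.conjTranspose_one, Matrix.smul_mul, Matrix.mul_smul, Matrix.one_mul, smul_smul,
      ← Matrix.det_conjTranspose, ← Matrix.det_mul, pi_star', Matrix.det_one, one_smul]⟩
  map_one' := by
    apply Subtype.ext
    change ((π 1 : Matrix.unitaryGroup (Fin n) ℂ) : Matrix (Fin n) (Fin n) ℂ).det •
      (1 : Matrix (Fin 1) (Fin 1) ℂ) = 1
    rw [map_one]
    change (1 : Matrix (Fin n) (Fin n) ℂ).det • (1 : Matrix (Fin 1) (Fin 1) ℂ) = 1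
    rw [Matrix.det_one, one_smul]
  map_mul' g h := by
    apply Subtype.ext
    change ((π (g * h) : Matrix.unitaryGroup (Fin n) ℂ) : Matrix (Fin n) (Fin n) ℂ).det •
      (1 : Matrix (Fin 1) (Fin 1) ℂ) =
      ((π g : Matrix (Fin n) (Fin n) ℂ).det • (1 : Matrix (Fin 1) (Fin 1) ℂ)) *
      ((π h : Matrix (Fin n) (Fin n) ℂ).det • (1 : Matrix (Fin 1) (Fin 1) ℂ))
    rw [pi_mul, Matrix.det_mul, Matrix.smul_mul, Matrix.one_mul, smul_smul]

theorem dt_cont (hc : Continuous π) : Continuous (dt π) := by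
  refine Continuous.subtype_mk ?_ _
  exact (cont_mat hc).matrix_det.smul continuous_const

/-- a group without nontrivial characters of degree one -/
def Perf (H : Type) [Group H] [TopologicalSpace H] : Prop :=
  ∀ ψ : H →* Matrix.unitaryGroup (Fin 1) ℂ, Continuous ψ → ∀ g, ψ g = 1

theorem det_one (h : Perf H) (hc : Continuous π) (g : H) :
    (π g : Matrix (Fin n) (Fin n) ℂ).det = 1 := by
  have h1 := h (dt π) (dt_cont hc) g
  have h2 := congrArg (fun X : Matrix.unitaryGroup (Fin 1) ℂ =>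
    (X : Matrix (Fin 1) (Fin 1) ℂ) 0 0) h1
  change ((π g : Matrix (Fin n) (Fin n) ℂ).det • (1 : Matrix (Fin 1) (Fin 1) ℂ)) 0 0 =
    (1 : Matrix (Fin 1) (Fin 1) ℂ) 0 0 at h2
  simpa using h2

end

/-- differences of powers -/
theorem pow_lip {C : ℝ} (hC : 0 ≤ C) (k : ℕ) : ∃ D : ℝ, ∀ a b : ℂ, ‖a‖ ≤ C → ‖b‖ ≤ C →
    ‖a ^ k - b ^ k‖ ≤ D * ‖a - b‖ := by
  induction k with
  | zero => exact ⟨0, fun a b _ _ => by simp⟩
  | succ k ih =>
    obtain ⟨D, hD⟩ := ih
    refine ⟨C ^ k + D * C, fun a b ha hb => ?_⟩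
    have e : a ^ (k + 1) - b ^ (k + 1) = a ^ k * (a - b) + (a ^ k - b ^ k) * b := by ring
    rw [e]
    refine (norm_add_le _ _).trans ?_
    rw [norm_mul, norm_mul, norm_pow, add_mul]
    refine add_le_add (mul_le_mul_of_nonneg_right (pow_le_pow_left₀ (norm_nonneg _) ha k)
      (norm_nonneg _)) ?_
    have h1 := mul_le_mul (hD a b ha hb) hb (norm_nonneg _)
      ((norm_nonneg _).trans (hD a b ha hb))
    linarith

section

variable {K : Type} [Field K] [NumberField K]
variable {ι : Type} [Fintype ι] [DecidableEq ι] {G : ι → Type} [∀ i, Group (G i)]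
  [∀ i, TopologicalSpace (G i)] [∀ i, IsTopologicalGroup (G i)] [∀ i, CompactSpace (G i)]
  [∀ i, T2Space (G i)] [∀ i, SecondCountableTopology (G i)] [∀ i, MeasurableSpace (G i)]
  [∀ i, BorelSpace (G i)] {μ : ∀ i, Measure (G i)} [∀ i, IsProbabilityMeasure (μ i)]
  [∀ i, (μ i).IsHaarMeasure] {x : ∀ i, HeightOneSpectrum (𝓞 K) → G i}

/-- a relation with a nonzero height makes all means of powers zero -/
theorem height_zero {i j : ι} {n n' : ℕ} {π : G i →* Matrix.unitaryGroup (Fin n) ℂ}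
    {π' : G j →* Matrix.unitaryGroup (Fin n') ℂ} (hx : Law (x i) (μ i)) (hx' : Law (x j) (μ j))
    (hc : Continuous π) (hc' : Continuous π') {τ r : ℝ} (hr : |r| = 1) (hτ : τ ≠ 0)
    {U : Ultrafilter ℝ} (hU : (U : Filter ℝ) ≤ 𝓝[>] 0)
    (h0 : (M (nm K) U fun v => ‖Dp π π' (x i) (x j) τ r v‖ ^ 2) = 0) {a : ℕ} (ha : a ≠ 0) {c : ℝ}
    (hcc : ∫ g, chi π g ^ a ∂(μ i) = c) : c = 0 := by
  have hN := sysF K
  set C : ℝ := max n n' with hC
  have hC0 : 0 ≤ C := le_max_of_le_left (Nat.cast_nonneg n)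
  obtain ⟨D, hD⟩ := pow_lip hC0 a
  set E : HeightOneSpectrum (𝓞 K) → ℂ := fun v =>
    (r : ℂ) * (conj (chi π' (x j v)) * ((nm K v : ℕ) : ℂ) ^ (τ * I : ℂ)) with hE
  have hEn : ∀ v, ‖E v‖ = ‖chi π' (x j v)‖ := by
    intro v
    rw [hE]
    simp only
    rw [norm_mul, norm_mul, ← conj_q, Complex.norm_conj, Complex.norm_conj, norm_q,
      Complex.norm_real, Real.norm_eq_abs, hr, one_mul, mul_one]
  have hDE : ∀ v, Dp π π' (x i) (x j) τ r v = chi π (x i v) - E v := fun v => rfl
  have hDb : Bc (Dp π π' (x i) (x j) τ r) := by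
    refine ⟨n + n', fun v => ?_⟩
    rw [hDE]
    refine (norm_sub_le _ _).trans ?_
    rw [hEn]
    exact add_le_add (norm_chi π _) (norm_chi π' _)
  -- the mean of the real part of the power of the first character
  have hf : Continuous fun g : G i => (chi π g ^ a).re :=
    Complex.continuous_re.comp ((cont_chi hc).pow a)
  have h1 : (M (nm K) U fun v => (chi π (x i v) ^ a).re) = c := by
    rw [M_law hx hU (f := fun g => (chi π g ^ a).re) hf fun g h => by rw [chi_cls]]
    have h2 : ∫ g, (chi π g ^ a).re ∂(μ i) = (∫ g, chi π g ^ a ∂(μ i)).re :=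
      integral_re (intg ((cont_chi hc).pow a))
    rw [h2, hcc, Complex.ofReal_re]
  -- the second one
  obtain ⟨c', hc1, -⟩ := int_pow_real (μ := μ j) hc' a
  have h3 := law_c hx' (f := fun g => chi π' g ^ a) ((cont_chi hc').pow a)
    fun g h => by rw [chi_cls]
  rw [hc1] at h3
  have hb2 : ∀ v, ‖chi π' (x j v) ^ a‖ ≤ (n' : ℝ) ^ a := fun v => by
    rw [norm_pow]
    exact pow_le_pow_left₀ (norm_nonneg _) (norm_chi π' _) a
  have h4 := mean_edge (g := fun v => chi π' (x j v) ^ a) hb2 c' (mn_tendsto h3) (a * τ)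
  rw [if_neg (mul_ne_zero (Nat.cast_ne_zero.2 ha) hτ)] at h4
  have hEa : ∀ v, ((E v) ^ a).re = r ^ a * (chi π' (x j v) ^ a *
      ((nm K v : ℕ) : ℂ) ^ (-(((a * τ : ℝ) : ℂ) * I))).re := by
    intro v
    have e1 : ((nm K v : ℕ) : ℂ) ^ (-(((a * τ : ℝ) : ℂ) * I)) =
        (((nm K v : ℕ) : ℂ) ^ (-(τ * I : ℂ))) ^ a := by
      rw [← Complex.cpow_nat_mul]
      congr 1
      push_cast
      ring
    have e2 : (E v) ^ a = ((r ^ a : ℝ) : ℂ) * conj (chi π' (x j v) ^ a *
        ((nm K v : ℕ) : ℂ) ^ (-(((a * τ : ℝ) : ℂ) * I))) := by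
      rw [e1, hE]
      simp only
      rw [map_mul, map_pow, map_pow, conj_q]
      push_cast
      ring
    rw [e2, Complex.re_ofReal_mul, Complex.conj_re]
  have h5 : (M (nm K) U fun v => ((E v) ^ a).re) = 0 := by
    simp only [hEa]
    have hb3 : Bd fun v => (chi π' (x j v) ^ a *
        ((nm K v : ℕ) : ℂ) ^ (-(((a * τ : ℝ) : ℂ) * I))).re := by
      refine ⟨(n' : ℝ) ^ a, fun v => (Complex.abs_re_le_norm _).trans ?_⟩
      rw [norm_mul, norm_q, mul_one]
      exact hb2 v
    rw [M_const_mul hN hU hb3, M_of_tendsto hU h4, mul_zero]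
  -- the difference
  have hbA : Bd fun v => (chi π (x i v) ^ a).re := by
    refine ⟨(n : ℝ) ^ a, fun v => (Complex.abs_re_le_norm _).trans ?_⟩
    rw [norm_pow]
    exact pow_le_pow_left₀ (norm_nonneg _) (norm_chi π _) a
  have hbE : Bd fun v => ((E v) ^ a).re := by
    refine ⟨(n' : ℝ) ^ a, fun v => (Complex.abs_re_le_norm _).trans ?_⟩
    rw [norm_pow, hEn]
    exact pow_le_pow_left₀ (norm_nonneg _) (norm_chi π' _) a
  have h6 : (M (nm K) U fun v => |D| * ‖Dp π π' (x i) (x j) τ r v‖) = 0 := by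
    rw [M_const_mul hN hU hDb.norm, M_zero_of_sq hN hU hDb.norm h0, mul_zero]
  have h7 : (M (nm K) U fun v => |(chi π (x i v) ^ a).re - ((E v) ^ a).re|) = 0 := by
    refine M_zero_of_le hN hU (hbA.sub hbE).abs (hDb.norm.const_mul _) (fun v => abs_nonneg _)
      (fun v => ?_) h6
    rw [← Complex.sub_re]
    refine (Complex.abs_re_le_norm _).trans ?_
    refine (hD _ _ ((norm_chi π _).trans (le_max_left _ _))
      ((hEn v).le.trans ((norm_chi π' _).trans (le_max_right _ _)))).trans ?_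
    rw [hDE]
    exact mul_le_mul_of_nonneg_right (le_abs_self _) (norm_nonneg _)
  have h8 : M (nm K) U (fun v => (chi π (x i v) ^ a).re - ((E v) ^ a).re) = 0 := by
    refine le_antisymm ?_ ?_
    · rw [← h7]
      exact M_mono hN hU (hbA.sub hbE) (hbA.sub hbE).abs fun v => le_abs_self _
    · have h9 := M_mono hN hU (hbA.sub hbE).neg (hbA.sub hbE).abs fun v => neg_le_abs _
      rw [h7, M_neg hN hU (hbA.sub hbE)] at h9
      linarith
  rw [M_sub hN hU hbA hbE, h1, h5, sub_zero] at h8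
  exact h8

/-- no relations of height zero between characters of the same degree -/
def NoPair0 (x : ∀ i, HeightOneSpectrum (𝓞 K) → G i) : Prop := ∀ i j : ι, i ≠ j →
  ∀ (n : ℕ) (π : G i →* Matrix.unitaryGroup (Fin n) ℂ)
    (π' : G j →* Matrix.unitaryGroup (Fin n) ℂ), Continuous π → Schur π → Continuous π' →
    Schur π' → 2 ≤ n → ∀ r : ℝ, |r| = 1 →
    ¬ Null fun v => chi π (x i v) - r * conj (chi π' (x j v))

theorem noPair_of_zero (hx : ∀ i, Law (x i) (μ i)) (hG : ∀ i, Perf (G i)) (h : NoPair0 x) :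
    NoPair x := by
  intro i j hij n n' π π' hc hs hc' hs' hn hn' τ r hr hnull
  have hN := sysF K
  obtain ⟨V, hV⟩ := Ultrafilter.exists_le (𝓝[>] (0 : ℝ))
  have hDb : Bc (Dp π π' (x i) (x j) τ r) := by
    rw [df_eq]
    exact Bc.df ⟨n, fun v => norm_chi π _⟩ ⟨n', fun v => by
      rw [norm_mul, norm_q, mul_one]
      exact norm_chi π' _⟩ r
  have h0 := M_of_null hDb hnull hV
  by_cases hτ : τ = 0
  · subst hτ
    have hd := same_dim (hx i) (hx j) hc hc' hr hV h0
    subst hd
    refine h i j hij n π π' hc hs hc' hs' hn r hr ?_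
    have e : (fun v => chi π (x i v) - r * conj (chi π' (x j v))) =
        Dp π π' (x i) (x j) 0 r := by
      funext v
      unfold Dp
      simp
    rw [e]
    exact hnull
  · obtain ⟨c, h1, h2⟩ := int_pow_pos (μ := μ i) hc (det_one (hG i) hc)
    have h3 := height_zero (hx i) (hx j) hc hc' hr hτ hV h0 (show n ≠ 0 by omega) h1
    linarith

theorem noPair0_of (h : NoPair x) : NoPair0 x := by
  intro i j hij n π π' hc hs hc' hs' hn r hr hnull
  refine h i j hij n n π π' hc hs hc' hs' hn hn 0 r hr ?_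
  have e : (fun v => chi π (x i v) - r * conj (chi π' (x j v))) =
      Dp π π' (x i) (x j) 0 r := by
    funext v
    unfold Dp
    simp
  rw [← e]
  exact hnull

theorem noAb_of_perf (hG : ∀ i, Perf (G i)) : NoAb x := by
  intro ψ hψ ⟨i, g, hg⟩
  exact absurd (hG i (ψ i) (hψ i) g) hg

end

end Pool.Agent.N210.JN
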