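import Mathlib

set_option autoImplicit false
set_option linter.unusedSectionVars false

/-!
# Tensor products of a finite family of matrices
-/

namespace Pool.Agent.N210.JN

open scoped Matrix

variable {ι : Type} [Fintype ι] [DecidableEq ι] {n : ι → ℕ}

/-- the tensor product -/
noncomputable def tens (A : ∀ i, Matrix (Fin (n i)) (Fin (n i)) ℂ) :
    Matrix (∀ i, Fin (n i)) (∀ i, Fin (n i)) ℂ := Matrix.of fun a b => ∏ i, A i (a i) (b i)

theorem trace_tens (A : ∀ i, Matrix (Fin (n i)) (Fin (n i)) ℂ) :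
    (tens A).trace = ∏ i, (A i).trace := by
  unfold Matrix.trace
  rw [Finset.prod_univ_sum, Fintype.piFinset_univ]
  rfl

theorem tens_mul (A B : ∀ i, Matrix (Fin (n i)) (Fin (n i)) ℂ) :
    tens A * tens B = tens fun i => A i * B i := by
  ext a b
  unfold tens
  simp only [Matrix.mul_apply, Matrix.of_apply]
  rw [Finset.prod_univ_sum, Fintype.piFinset_univ]
  exact Finset.sum_congr rfl fun c _ => Finset.prod_mul_distrib.symm

theorem tens_one : tens (fun i => (1 : Matrix (Fin (n i)) (Fin (n i)) ℂ)) = 1 := by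
  ext a b
  unfold tens
  simp only [Matrix.of_apply, Matrix.one_apply]
  by_cases h : a = b
  · subst h
    simp
  · rw [if_neg h]
    obtain ⟨i, hi⟩ := Function.ne_iff.1 h
    exact Finset.prod_eq_zero (Finset.mem_univ i) (if_neg hi)

theorem tens_star (A : ∀ i, Matrix (Fin (n i)) (Fin (n i)) ℂ) :
    (tens A)ᴴ = tens fun i => (A i)ᴴ := by
  ext a b
  unfold tens
  simp only [Matrix.conjTranspose_apply, Matrix.of_apply]
  exact map_prod (starRingEnd ℂ) _ _

theorem tens_unitary {A : ∀ i, Matrix (Fin (n i)) (Fin (n i)) ℂ}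
    (h : ∀ i, A i ∈ Matrix.unitaryGroup (Fin (n i)) ℂ) :
    tens A ∈ Matrix.unitaryGroup (∀ i, Fin (n i)) ℂ := by
  rw [Matrix.mem_unitaryGroup_iff, Matrix.star_eq_conjTranspose, tens_star, tens_mul, ← tens_one]
  congr 1
  funext i
  exact Matrix.mem_unitaryGroup_iff.1 (h i)

end Pool.Agent.N210.JN
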