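import Pool.Agent.TH553.ST.Pair2
import Pool.Agent.N210.JN.Tens

set_option autoImplicit false
set_option linter.unusedSectionVars false

/-!
# The L-functions of a finite family
-/

namespace Pool.Agent.N210.JN

open Complex Filter Topology ComplexConjugate NumberField IsDedekindDomain MeasureTheory
  Pool.Agent.W540.BE Pool.Agent.TH553.RS Pool.Agent.TH553.ST Pool.Agent.H341R2

section

variable {K : Type} [Field K] [NumberField K]
variable {ι : Type} [Fintype ι] [DecidableEq ι] {G : ι → Type} [∀ i, Group (G i)]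
  {n : ι → ℕ}

/-- the matrices -/
noncomputable def TM (ρ : ∀ i, G i →* Matrix.unitaryGroup (Fin (n i)) ℂ)
    (x : ∀ i, HeightOneSpectrum (𝓞 K) → G i) (v : HeightOneSpectrum (𝓞 K)) :
    Matrix (∀ i, Fin (n i)) (∀ i, Fin (n i)) ℂ :=
  tens fun i => (ρ i (x i v) : Matrix (Fin (n i)) (Fin (n i)) ℂ)

/-- the product of the characters -/
noncomputable def pc (ρ : ∀ i, G i →* Matrix.unitaryGroup (Fin (n i)) ℂ)
    (x : ∀ i, HeightOneSpectrum (𝓞 K) → G i) (v : HeightOneSpectrum (𝓞 K)) : ℂ :=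
  ∏ i, chi (ρ i) (x i v)

/-- the L-function -/
noncomputable def LT (ρ : ∀ i, G i →* Matrix.unitaryGroup (Fin (n i)) ℂ)
    (x : ∀ i, HeightOneSpectrum (𝓞 K) → G i) (s : ℂ) : ℂ :=
  ∏' v, (Matrix.det (1 - (((nm K v : ℕ) : ℂ) ^ (-s)) • TM ρ x v))⁻¹

theorem norm_pc (ρ : ∀ i, G i →* Matrix.unitaryGroup (Fin (n i)) ℂ)
    (x : ∀ i, HeightOneSpectrum (𝓞 K) → G i) (v : HeightOneSpectrum (𝓞 K)) :
    ‖pc ρ x v‖ ≤ ∏ i, (n i : ℝ) := by
  unfold pc
  rw [norm_prod]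
  exact Finset.prod_le_prod (fun i _ => norm_nonneg _) fun i _ => norm_chi (ρ i) _

theorem exists_alT (ρ : ∀ i, G i →* Matrix.unitaryGroup (Fin (n i)) ℂ)
    (x : ∀ i, HeightOneSpectrum (𝓞 K) → G i) :
    ∃ α : HeightOneSpectrum (𝓞 K) → Fin (Fintype.card (∀ i, Fin (n i))) → ℂ,
      (∀ v j, ‖α v j‖ = 1) ∧ (∀ v, ∑ j, α v j = pc ρ x v) ∧
      ∀ v (c : ℂ), Matrix.det (1 - c • TM ρ x v) = ∏ j, (1 - α v j * c) := by
  have h : ∀ v, TM ρ x v ∈ Matrix.unitaryGroup (∀ i, Fin (n i)) ℂ :=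
    fun v => tens_unitary fun i => (ρ i (x i v)).2
  choose α h1 h2 h3 using fun v => exists_eig (h v)
  refine ⟨α, h1, fun v => ?_, h3⟩
  rw [h2]
  exact trace_tens _

/-- size and correlation -/
theorem size_LT (ρ : ∀ i, G i →* Matrix.unitaryGroup (Fin (n i)) ℂ)
    (x : ∀ i, HeightOneSpectrum (𝓞 K) → G i) (τ : ℝ) :
    (∀ᶠ ε : ℝ in 𝓝[>] 0, LT ρ x (1 + τ * I + ε) ≠ 0) ∧
    Tendsto (fun ε : ℝ => qt (nm K)
        (fun v => (pc ρ x v * ((nm K v : ℕ) : ℂ) ^ (-(τ * I : ℂ))).re) ε -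
      Real.log ‖LT ρ x (1 + τ * I + ε)‖ / Real.log (1 / ε)) (𝓝[>] 0) (𝓝 0) := by
  obtain ⟨α, h1, h2, h3⟩ := exists_alT ρ x
  set B : HeightOneSpectrum (𝓞 K) → Polynomial ℂ := fun v =>
    ∏ j, (1 - Polynomial.C (α v j) * Polynomial.X) with hB
  have hBe : ∀ v z, (B v).eval z = ∏ j, (1 - α v j * z) := by
    intro v z
    rw [hB]
    simp [Polynomial.eval_prod]
  exact size_unit (sysF K) α (Filter.Eventually.of_forall h1)
    (t := fun v => pc ρ x v) (C := ∏ i, (n i : ℝ)) (norm_pc ρ x)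
    (Filter.Eventually.of_forall h2) τ B (Filter.Eventually.of_forall hBe)
    (fun v => by
      rw [hBe, Finset.prod_ne_zero_iff]
      intro j _ h4
      have h5 : ‖α v j * ((nm K v : ℕ) : ℂ) ^ (-(1 + τ * I : ℂ))‖ = 1 := by
        have : α v j * ((nm K v : ℕ) : ℂ) ^ (-(1 + τ * I : ℂ)) = 1 := by linear_combination -h4
        rw [this, norm_one]
      rw [norm_mul, h1, one_mul] at h5
      have h6 := cpow_le_half normSys v (s := 1 + τ * I) (by simp)
      linarith) (LT ρ x)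
    (fun s _ => by
      unfold LT
      refine tprod_congr fun v => ?_
      rw [h3, hBe])

/-- the size -/
noncomputable def szT (ρ : ∀ i, G i →* Matrix.unitaryGroup (Fin (n i)) ℂ)
    (x : ∀ i, HeightOneSpectrum (𝓞 K) → G i) (τ ε : ℝ) : ℝ :=
  Real.log ‖LT ρ x (1 + τ * I + ε)‖ / Real.log (1 / ε)

/-- a local continuation has an order, and the size tends to its negative -/
theorem order_LT {ρ : ∀ i, G i →* Matrix.unitaryGroup (Fin (n i)) ℂ}
    {x : ∀ i, HeightOneSpectrum (𝓞 K) → G i} {τ : ℝ} {Λ : ℂ → ℂ}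
    (h1 : MeromorphicAt Λ (1 + τ * I))
    (h2 : ∀ᶠ s in 𝓝 ((1 : ℂ) + τ * I), (1 : ℝ) < s.re → Λ s = LT ρ x s) :
    ∃ m : ℤ, meromorphicOrderAt Λ (1 + τ * I) = m ∧
      Tendsto (szT ρ x τ) (𝓝[>] 0) (𝓝 (-(m : ℝ))) :=
  order_unit (size_LT ρ x τ).1 h1 h2

/-- the Tauberian theorem -/
theorem taub_LT {ρ : ∀ i, G i →* Matrix.unitaryGroup (Fin (n i)) ℂ}
    {x : ∀ i, HeightOneSpectrum (𝓞 K) → G i}
    (h : ∀ τ : ℝ, ∃ Λ : ℂ → ℂ, MeromorphicAt Λ (1 + τ * I) ∧
      (∀ᶠ s in 𝓝 ((1 : ℂ) + τ * I), (1 : ℝ) < s.re → Λ s = LT ρ x s) ∧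
      meromorphicOrderAt Λ (1 + τ * I) = 0) :
    Tendsto (mn fun v => pc ρ x v) atTop (𝓝 0) := by
  obtain ⟨α, h1, h2, h3⟩ := exists_alT ρ x
  have h4 := taub h1 (L := LT ρ x) (fun s _ => by
    unfold LT
    exact tprod_congr fun v => by rw [h3]) (fun τ => by
    obtain ⟨Λ, h5, h6, h7⟩ := h τ
    obtain ⟨g, h10, h11, h12⟩ := (meromorphicOrderAt_eq_int_iff (n := 0) h5).1 (by simpa using h7)
    refine ⟨g, h10, h11, ?_⟩
    rw [eventually_nhdsWithin_iff] at h12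
    filter_upwards [h12, h6] with s h13 h14 h15
    have hne : s ≠ 1 + τ * I := by
      intro h
      rw [h] at h15
      simp at h15
    have h16 := h13 hne
    rw [zpow_zero, one_smul] at h16
    rw [← h16, h14 h15])
  refine h4.congr fun N => ?_
  congr 1
  funext v
  exact h2 v

end

/-! ### relations in the mean -/

section

variable {K : Type} [Field K] [NumberField K]

/-- small outside of sets of density zero -/
def Null (D : HeightOneSpectrum (𝓞 K) → ℂ) : Prop := ∀ δ : ℝ, 0 < δ →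
  Tendsto (fun ε => EP (nm K) ε ({v | δ < ‖D v‖}.indicator fun _ => 1) / Real.log (1 / ε))
    (𝓝[>] 0) (𝓝 0)

theorem ind_bd (s : Set (HeightOneSpectrum (𝓞 K))) : Bd (s.indicator fun _ => (1 : ℝ)) := by
  refine ⟨1, fun v => ?_⟩
  by_cases hv : v ∈ s
  · rw [Set.indicator_of_mem hv, abs_one]
  · rw [Set.indicator_of_notMem hv, abs_zero]
    norm_num

theorem null_of_M {D : HeightOneSpectrum (𝓞 K) → ℂ} (hDb : Bc D)
    (key : ∀ U : Ultrafilter ℝ, (U : Filter ℝ) ≤ 𝓝[>] 0 → (M (nm K) U fun v => ‖D v‖ ^ 2) = 0) :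
    Null D := by
  intro δ hδ
  have hN := sysF K
  set s : Set (HeightOneSpectrum (𝓞 K)) := {v | δ < ‖D v‖} with hs
  have hib := ind_bd s
  refine zero_log hN hib (tendsto_of_ultra fun U hU => ?_)
  have h1 := key U hU
  have h2 : (M (nm K) U fun v => (δ ^ 2)⁻¹ * ‖D v‖ ^ 2) = 0 := by
    rw [M_const_mul hN hU hDb.norm.sq, h1, mul_zero]
  have h3 : M (nm K) U (s.indicator fun _ => (1 : ℝ)) = 0 := by
    refine M_zero_of_le hN hU hib (hDb.norm.sq.const_mul _) (fun v => ?_) (fun v => ?_) h2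
    · exact Set.indicator_nonneg (fun _ _ => zero_le_one) v
    · by_cases hv : v ∈ s
      · rw [Set.indicator_of_mem hv]
        have h4 : δ < ‖D v‖ := hv
        rw [← div_eq_inv_mul, one_le_div (by positivity)]
        exact pow_le_pow_left₀ hδ.le h4.le 2
      · rw [Set.indicator_of_notMem hv]
        positivity
  have h4 := M_lim hN hU hib
  rw [h3] at h4
  exact h4

/-- from the logarithm to `lam` for the limit zero -/
theorem qt_of_log {φ : HeightOneSpectrum (𝓞 K) → ℝ} (hφ : Bd φ)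
    (h : Tendsto (fun ε => EP (nm K) ε φ / Real.log (1 / ε)) (𝓝[>] 0) (𝓝 0)) :
    Tendsto (qt (nm K) φ) (𝓝[>] 0) (𝓝 0) := by
  have hN := sysF K
  obtain ⟨C, hC⟩ := hN.bdd hφ
  have h1 : ∀ᶠ ε : ℝ in 𝓝[>] 0, |EP (nm K) ε φ| ≤ C * lam ε := by
    filter_upwards [hC, lam_tendsto.eventually_gt_atTop 0] with ε h1 h2
    unfold qt at h1
    rwa [abs_div, abs_of_pos h2, div_le_iff₀ h2] at h1
  have h2 := size_compare (y := fun ε => EP (nm K) ε φ) (ℓ := fun ε => EP (nm K) ε φ) (M := C)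
    (C := 0) h1 (Filter.Eventually.of_forall fun ε => by simp)
  have h3 := h.add h2
  rw [add_zero] at h3
  refine h3.congr fun ε => ?_
  unfold qt
  ring

theorem M_of_null {D : HeightOneSpectrum (𝓞 K) → ℂ} (hDb : Bc D) (h : Null D)
    {U : Ultrafilter ℝ} (hU : (U : Filter ℝ) ≤ 𝓝[>] 0) : (M (nm K) U fun v => ‖D v‖ ^ 2) = 0 := by
  have hN := sysF K
  obtain ⟨C, hC⟩ := hDb
  have hDb : Bc D := ⟨C, hC⟩
  have h0 := M_nonneg hN hU hDb.norm.sq fun _ => sq_nonneg _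
  refine le_antisymm ?_ h0
  refine le_of_forall_pos_le_add fun η hη => ?_
  rw [zero_add]
  set δ := Real.sqrt η with hδ
  have hδ0 : 0 < δ := Real.sqrt_pos.2 hη
  have hδ2 : δ ^ 2 = η := Real.sq_sqrt hη.le
  set s : Set (HeightOneSpectrum (𝓞 K)) := {v | δ < ‖D v‖} with hs
  have hib := ind_bd s
  have h1 : M (nm K) U (s.indicator fun _ => (1 : ℝ)) = 0 := by
    refine M_of_tendsto hU ?_
    exact qt_of_log hib (h δ hδ0)
  have h2 : (M (nm K) U fun v => η + C ^ 2 * s.indicator (fun _ => (1 : ℝ)) v) = η := by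
    rw [M_add hN hU (Bd.const η) (hib.const_mul _), M_const hN hU, M_const_mul hN hU hib, h1,
      mul_zero, add_zero]
  rw [← h2]
  refine M_mono hN hU hDb.norm.sq ((Bd.const η).add (hib.const_mul _)) fun v => ?_
  by_cases hv : v ∈ s
  · rw [Set.indicator_of_mem hv, mul_one]
    have := pow_le_pow_left₀ (norm_nonneg _) (hC v) 2
    linarith
  · rw [Set.indicator_of_notMem hv, mul_zero, add_zero, ← hδ2]
    have h4 : ‖D v‖ ≤ δ := not_lt.1 hv
    exact pow_le_pow_left₀ (norm_nonneg _) h4 2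

end

end Pool.Agent.N210.JN
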