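import Pool.Agent.N210.JN.Dens
import Pool.Agent.N210.JN.LT

set_option autoImplicit false
set_option linter.unusedSectionVars false

/-!
# Joint laws of finitely many families
-/

namespace Pool.Agent.N210.JN

open Complex Filter Topology ComplexConjugate NumberField IsDedekindDomain MeasureTheory
  Pool.Agent.W540.BE Pool.Agent.TH553.RS Pool.Agent.TH553.ST Pool.Agent.H341R2

section

variable {K : Type} [Field K] [NumberField K]
variable {ι : Type} [Fintype ι] [DecidableEq ι] {G : ι → Type} [∀ i, Group (G i)]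
  [∀ i, TopologicalSpace (G i)] [∀ i, IsTopologicalGroup (G i)] [∀ i, CompactSpace (G i)]
  [∀ i, T2Space (G i)] [∀ i, SecondCountableTopology (G i)] [∀ i, MeasurableSpace (G i)]
  [∀ i, BorelSpace (G i)] {μ : ∀ i, Measure (G i)} [∀ i, IsProbabilityMeasure (μ i)]
  [∀ i, (μ i).IsHaarMeasure] {x : ∀ i, HeightOneSpectrum (𝓞 K) → G i}

/-- the averages of the products of characters, for the subfamily `S` -/
def PC (μ : ∀ i, Measure (G i)) (x : ∀ i, HeightOneSpectrum (𝓞 K) → G i) (S : Finset ι) : Prop :=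
  ∀ (n : ι → ℕ) (ρ : ∀ i, G i →* Matrix.unitaryGroup (Fin (n i)) ℂ),
    (∀ i, Continuous (ρ i) ∧ Schur (ρ i)) → (∀ i, i ∉ S → ∀ g, ρ i g = 1) →
    Tendsto (mn fun v => pc ρ x v) atTop (𝓝 (∏ i, ∫ g, chi (ρ i) g ∂(μ i)))

theorem PC.mono {S T : Finset ι} (h : PC μ x S) (hTS : T ⊆ S) : PC μ x T :=
  fun n ρ h1 h2 => h n ρ h1 fun i hi => h2 i fun hT => hi (hTS hT)

theorem schur_one {H : Type} [Group H] (π : H →* Matrix.unitaryGroup (Fin 1) ℂ) : Schur π := by
  intro A _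
  refine ⟨A 0 0, ?_⟩
  ext i j
  fin_cases i
  fin_cases j
  simp

theorem chi_triv1 {H : Type} [Group H] (g : H) :
    chi (1 : H →* Matrix.unitaryGroup (Fin 1) ℂ) g = 1 := by
  unfold chi
  simp

/-- a combination of products of characters of the subfamily `S` -/
theorem approx {F : (∀ i, G i) → ℂ} (hF : Continuous F) (hcl : ∀ g k, F (k * g * k⁻¹) = F g)
    {S : Finset ι} (hS : ∀ p q, (∀ i ∈ S, p i = q i) → F p = F q) {ε : ℝ} (hε : 0 < ε) :
    ∃ (J : Type) (_ : Fintype J) (m : J → ι → ℕ)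
      (ρ : ∀ j i, G i →* Matrix.unitaryGroup (Fin (m j i)) ℂ) (a : J → ℂ),
      (∀ j i, Continuous (ρ j i) ∧ Schur (ρ j i)) ∧ (∀ j i, i ∉ S → ∀ g, ρ j i g = 1) ∧
      ∀ p : ∀ i, G i, ‖F p - ∑ j, a j * ∏ i, chi (ρ j i) (p i)‖ ≤ ε := by
  obtain ⟨J, _, m, ρ, a, h1, h2⟩ := class_denseN hF hcl hε
  have key : ∀ j i, ∃ (m' : ℕ) (ρ' : G i →* Matrix.unitaryGroup (Fin m') ℂ),
      Continuous ρ' ∧ Schur ρ' ∧ (i ∉ S → ∀ g, ρ' g = 1) ∧
      ∀ g : G i, chi (ρ j i) (if i ∈ S then g else 1) =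
        (if i ∈ S then 1 else chi (ρ j i) 1) * chi ρ' g := by
    intro j i
    by_cases hi : i ∈ S
    · exact ⟨m j i, ρ j i, (h1 j i).1, (h1 j i).2, fun h => absurd hi h, fun g => by
        rw [if_pos hi, if_pos hi, one_mul]⟩
    · exact ⟨1, 1, continuous_const, schur_one _, fun _ _ => rfl, fun g => by
        rw [if_neg hi, if_neg hi, chi_triv1, mul_one]⟩
  choose m' ρ' hc' hs' ht' he' using key
  refine ⟨J, inferInstance, m', ρ', fun j => a j * ∏ i, (if i ∈ S then 1 else chi (ρ j i) 1),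
    fun j i => ⟨hc' j i, hs' j i⟩, ht', fun p => ?_⟩
  have h3 := h2 fun i => if i ∈ S then p i else 1
  have h4 : F (fun i => if i ∈ S then p i else 1) = F p :=
    hS _ _ fun i hi => if_pos hi
  rw [h4] at h3
  have h5 : ∀ j, a j * ∏ i, chi (ρ j i) (if i ∈ S then p i else 1) =
      (a j * ∏ i, (if i ∈ S then 1 else chi (ρ j i) 1)) * ∏ i, chi (ρ' j i) (p i) := by
    intro j
    rw [mul_assoc, ← Finset.prod_mul_distrib]
    congr 1
    exact Finset.prod_congr rfl fun i _ => he' j i (p i)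
  rw [Finset.sum_congr rfl fun j _ => h5 j] at h3
  exact h3

theorem cont_pc {n : ι → ℕ} {ρ : ∀ i, G i →* Matrix.unitaryGroup (Fin (n i)) ℂ}
    (h : ∀ i, Continuous (ρ i)) : Continuous fun p : (∀ i, G i) => ∏ i, chi (ρ i) (p i) :=
  continuous_finsetProd _ fun i _ => (cont_chi (h i)).comp (continuous_apply i)

/-- the averages of the class functions of the subfamily `S` -/
theorem PC.law {S : Finset ι} (h : PC μ x S) {F : (∀ i, G i) → ℂ} (hF : Continuous F)
    (hcl : ∀ g k, F (k * g * k⁻¹) = F g) (hS : ∀ p q, (∀ i ∈ S, p i = q i) → F p = F q) :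
    Tendsto (mn fun v => F fun i => x i v) atTop (𝓝 (∫ p, F p ∂(Measure.pi μ))) := by
  refine mn_unif fun ε hε => ?_
  obtain ⟨J, _, m, ρ, a, h1, h2, h3⟩ := approx hF hcl hS hε
  refine ⟨fun v => ∑ j, a j * pc (ρ j) x v, ∑ j, a j * ∏ i, ∫ g, chi (ρ j i) g ∂(μ i),
    fun v => h3 _, ?_, ?_⟩
  · have hci : ∀ j, Continuous fun p : (∀ i, G i) => a j * ∏ i, chi (ρ j i) (p i) := fun j =>
      continuous_const.mul (cont_pc fun i => (h1 j i).1)
    have hFc : Continuous fun p : (∀ i, G i) => ∑ j, a j * ∏ i, chi (ρ j i) (p i) :=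
      continuous_finsetSum _ fun j _ => hci j
    have h5 : ∫ p, (∑ j, a j * ∏ i, chi (ρ j i) (p i)) ∂(Measure.pi μ) =
        ∑ j, a j * ∏ i, ∫ g, chi (ρ j i) g ∂(μ i) := by
      rw [integral_finsetSum _ fun j _ => intg (hci j)]
      refine Finset.sum_congr rfl fun j _ => ?_
      rw [integral_const_mul]
      congr 1
      exact integral_fintype_prod_eq_prod (μ := μ) (𝕜 := ℂ) fun i g => chi (ρ j i) g
    rw [← h5, ← integral_sub (intg hFc) (intg hF)]
    refine (norm_integral_le_integral_norm _).trans ?_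
    have h6 : ∫ p, ‖(∑ j, a j * ∏ i, chi (ρ j i) (p i)) - F p‖ ∂(Measure.pi μ) ≤
        ∫ _, ε ∂(Measure.pi μ) := by
      refine integral_mono ((intg hFc).sub (intg hF)).norm (integrable_const _) fun p => ?_
      simp only
      rw [norm_sub_rev]
      exact h3 p
    simpa using h6
  · have h5 : Tendsto (fun N => ∑ j, a j * mn (fun v => pc (ρ j) x v) N) atTop
        (𝓝 (∑ j, a j * ∏ i, ∫ g, chi (ρ j i) g ∂(μ i))) :=
      tendsto_finsetSum _ fun j _ => (h (m j) (ρ j) (h1 j) (h2 j)).const_mul _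
    refine h5.congr fun N => ?_
    rw [mn_sum]
    exact Finset.sum_congr rfl fun j _ => (mn_mul _ _ _).symm

/-- the means of real products -/
theorem PC.mean {S : Finset ι} (h : PC μ x S) {f : ∀ i, G i → ℝ} (hf : ∀ i, Continuous (f i))
    (hcl : ∀ i g k, f i (k * g * k⁻¹) = f i g) (hS : ∀ i, i ∉ S → ∀ g g', f i g = f i g')
    {U : Ultrafilter ℝ} (hU : (U : Filter ℝ) ≤ 𝓝[>] 0) :
    (M (nm K) U fun v => ∏ i, f i (x i v)) = ∏ i, ∫ g, f i g ∂(μ i) := by
  set Fr : (∀ i, G i) → ℝ := fun p => ∏ i, f i (p i) with hFr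
  have hcF : Continuous Fr :=
    continuous_finsetProd _ fun i _ => (hf i).comp (continuous_apply i)
  have k1 : ∀ g k, Fr (k * g * k⁻¹) = Fr g := fun g k =>
    Finset.prod_congr rfl fun i _ => hcl i (g i) (k i)
  have k2 : ∀ p q, (∀ i ∈ S, p i = q i) → Fr p = Fr q := fun p q hpq => by
    refine Finset.prod_congr rfl fun i _ => ?_
    by_cases hi : i ∈ S
    · rw [hpq i hi]
    · exact hS i hi _ _
  have h1 := h.law (F := fun p => ((Fr p : ℝ) : ℂ))
    (Complex.continuous_ofReal.comp hcF) (fun g k => by rw [k1]) (fun p q hpq => by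
      rw [k2 p q hpq])
  have h2 : ∫ p : (∀ i, G i), ((Fr p : ℝ) : ℂ) ∂(Measure.pi μ) =
      ((∏ i, ∫ g, f i g ∂(μ i) : ℝ) : ℂ) := by
    have h0 : ∫ p : (∀ i, G i), ((Fr p : ℝ) : ℂ) ∂(Measure.pi μ) =
      ((∫ p : (∀ i, G i), Fr p ∂(Measure.pi μ) : ℝ) : ℂ) := integral_ofReal
    rw [h0]
    congr 1
    exact integral_fintype_prod_eq_prod (μ := μ) (𝕜 := ℝ) f
  rw [h2] at h1
  refine M_of_mn hU ?_ ?_
  · obtain ⟨C, hC⟩ := (isCompact_univ (X := ∀ i, G i)).exists_bound_of_continuousOn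
      hcF.continuousOn
    exact ⟨C, fun v => hC (fun i => x i v) (Set.mem_univ _)⟩
  · have h3 := (Complex.continuous_re.tendsto _).comp h1
    rw [Complex.ofReal_re] at h3
    refine h3.congr fun N => ?_
    simp only [Function.comp]
    rw [re_mn]
    rfl

end

end Pool.Agent.N210.JN
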