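import Pool.Agent.N210.JN.Step

set_option autoImplicit false
set_option linter.unusedSectionVars false

/-!
# The induction over the subfamilies
-/

namespace Pool.Agent.N210.JN

open Complex Filter Topology ComplexConjugate NumberField IsDedekindDomain MeasureTheory
  Pool.Agent.W540.BE Pool.Agent.TH553.RS Pool.Agent.TH553.ST Pool.Agent.H341R2

section

variable {K : Type} [Field K] [NumberField K]
variable {ι : Type} [Fintype ι] [DecidableEq ι] {G : ι → Type} [∀ i, Group (G i)]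
  [∀ i, TopologicalSpace (G i)] [∀ i, IsTopologicalGroup (G i)] [∀ i, CompactSpace (G i)]
  [∀ i, T2Space (G i)] [∀ i, SecondCountableTopology (G i)] [∀ i, MeasurableSpace (G i)]
  [∀ i, BorelSpace (G i)] {μ : ∀ i, Measure (G i)} [∀ i, IsProbabilityMeasure (μ i)]
  [∀ i, (μ i).IsHaarMeasure] {x : ∀ i, HeightOneSpectrum (𝓞 K) → G i}

/-- the difference in a relation between two characters -/
noncomputable def Dp {H H' : Type} [Group H] [Group H'] {n n' : ℕ}
    (π : H →* Matrix.unitaryGroup (Fin n) ℂ) (π' : H' →* Matrix.unitaryGroup (Fin n') ℂ)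
    (y : HeightOneSpectrum (𝓞 K) → H) (y' : HeightOneSpectrum (𝓞 K) → H') (τ r : ℝ)
    (v : HeightOneSpectrum (𝓞 K)) : ℂ :=
  chi π (y v) - r * (conj (chi π' (y' v)) * ((nm K v : ℕ) : ℂ) ^ (τ * I : ℂ))

/-- no relations between two characters -/
def NoPair (x : ∀ i, HeightOneSpectrum (𝓞 K) → G i) : Prop := ∀ i j : ι, i ≠ j →
  ∀ (n n' : ℕ) (π : G i →* Matrix.unitaryGroup (Fin n) ℂ)
    (π' : G j →* Matrix.unitaryGroup (Fin n') ℂ), Continuous π → Schur π → Continuous π' →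
    Schur π' → 2 ≤ n → 2 ≤ n' → ∀ τ r : ℝ, |r| = 1 → ¬ Null (Dp π π' (x i) (x j) τ r)

/-- no relations between characters of degree one -/
def NoAb (x : ∀ i, HeightOneSpectrum (𝓞 K) → G i) : Prop :=
  ∀ ψ : ∀ i, G i →* Matrix.unitaryGroup (Fin 1) ℂ, (∀ i, Continuous (ψ i)) →
    (∃ i g, ψ i g ≠ 1) → ∀ τ r : ℝ, |r| = 1 →
    ¬ Null fun v => pc ψ x v * ((nm K v : ℕ) : ℂ) ^ (-(τ * I : ℂ)) - r

theorem conj_q (v : HeightOneSpectrum (𝓞 K)) (τ : ℝ) :
    conj (((nm K v : ℕ) : ℂ) ^ (-(τ * I : ℂ))) = ((nm K v : ℕ) : ℂ) ^ (τ * I : ℂ) := by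
  have h1 := Complex.cpow_conj ((nm K v : ℕ) : ℂ) (-(τ * I : ℂ)) (by
    rw [Complex.natCast_arg]
    exact Real.pi_ne_zero.symm)
  rw [Complex.conj_natCast] at h1
  rw [← h1]
  congr 1
  simp

theorem df_eq {H H' : Type} [Group H] [Group H'] {n n' : ℕ}
    (π : H →* Matrix.unitaryGroup (Fin n) ℂ) (π' : H' →* Matrix.unitaryGroup (Fin n') ℂ)
    (y : HeightOneSpectrum (𝓞 K) → H) (y' : HeightOneSpectrum (𝓞 K) → H') (τ r : ℝ) :
    Dp π π' y y' τ r = df r (fun v => chi π (y v))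
      (fun v => chi π' (y' v) * ((nm K v : ℕ) : ℂ) ^ (-(τ * I : ℂ))) := by
  funext v
  unfold Dp df
  rw [map_mul, conj_q]

theorem norm_q (v : HeightOneSpectrum (𝓞 K)) (τ : ℝ) :
    ‖((nm K v : ℕ) : ℂ) ^ (-(τ * I : ℂ))‖ = 1 := norm_cpow_I (nm_pos v) τ

/-- the mean of the square of the distance to a number -/
theorem M_dist {t : HeightOneSpectrum (𝓞 K) → ℂ} (ht : ∀ v, ‖t v‖ = 1) (r : ℝ)
    {U : Ultrafilter ℝ} (hU : (U : Filter ℝ) ≤ 𝓝[>] 0) :
    (M (nm K) U fun v => ‖t v - r‖ ^ 2) = 1 + r ^ 2 - 2 * r * M (nm K) U fun v => (t v).re := by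
  have hN := sysF K
  have hb : Bc t := ⟨1, fun v => (ht v).le⟩
  have e : (fun v => ‖t v - r‖ ^ 2) = fun v => (1 + r ^ 2) + (-(2 * r)) * (t v).re := by
    funext v
    have h1 : ‖t v‖ ^ 2 = 1 := by rw [ht v, one_pow]
    rw [Complex.sq_norm, Complex.normSq_apply] at h1 ⊢
    simp only [Complex.sub_re, Complex.sub_im, Complex.ofReal_re, Complex.ofReal_im]
    linear_combination h1
  rw [e, M_add hN hU (Bd.const _) (hb.re.const_mul _), M_const hN hU, M_const_mul hN hU hb.re]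
  ring

theorem norm_pc1 {ψ : ∀ i, G i →* Matrix.unitaryGroup (Fin 1) ℂ} (v : HeightOneSpectrum (𝓞 K)) :
    ‖pc ψ x v‖ = 1 := by
  unfold pc
  rw [norm_prod]
  exact Finset.prod_eq_one fun i _ => norm_one1 _ _

theorem M_pow {i : ι} {n : ℕ} {π : G i →* Matrix.unitaryGroup (Fin n) ℂ}
    (hx : Law (x i) (μ i)) (hc : Continuous π) {U : Ultrafilter ℝ}
    (hU : (U : Filter ℝ) ≤ 𝓝[>] 0) (a : ℕ) :
    (M (nm K) U fun v => (‖chi π (x i v)‖ ^ 2) ^ a) = ∫ g, (‖chi π g‖ ^ 2) ^ a ∂(μ i) :=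
  M_law hx hU (f := fun g => (‖chi π g‖ ^ 2) ^ a) (cont_sq hc a) fun g h => cls_sq a g h

/-- a relation between two characters implies that they have the same degree -/
theorem same_dim {i j : ι} {n n' : ℕ} {π : G i →* Matrix.unitaryGroup (Fin n) ℂ}
    {π' : G j →* Matrix.unitaryGroup (Fin n') ℂ} (hx : Law (x i) (μ i)) (hx' : Law (x j) (μ j))
    (hc : Continuous π) (hc' : Continuous π') {τ r : ℝ} (hr : |r| = 1) {U : Ultrafilter ℝ}
    (hU : (U : Filter ℝ) ≤ 𝓝[>] 0)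
    (h0 : (M (nm K) U fun v => ‖Dp π π' (x i) (x j) τ r v‖ ^ 2) = 0) : n = n' := by
  have hN := sysF K
  rw [df_eq] at h0
  have hb : Bc fun v => chi π (x i v) := ⟨n, fun v => norm_chi π _⟩
  have hb' : Bc fun v => chi π' (x j v) * ((nm K v : ℕ) : ℂ) ^ (-(τ * I : ℂ)) :=
    ⟨n', fun v => by
      rw [norm_mul, norm_q, mul_one]
      exact norm_chi π' _⟩
  refine dim_eq (μ := μ i) (μ' := μ j) hc hc' fun a => ?_
  have h1 := edge_mom hN hU hb hb' hr h0 a
  simp only [norm_mul, norm_q, mul_one] at h1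
  rw [M_pow hx hc hU, M_pow hx' hc' hU] at h1
  exact h1

/-- **The order is zero.** -/
theorem order_zero {n : ι → ℕ} {ρ : ∀ i, G i →* Matrix.unitaryGroup (Fin (n i)) ℂ}
    (hρ : ∀ i, Continuous (ρ i) ∧ Schur (ρ i)) (hn : ∀ i, n i ≠ 0) (hx : ∀ i, Law (x i) (μ i))
    {S : Finset ι} (hS2 : 2 ≤ S.card) (hSn : ∀ i, i ∈ S ↔ ∃ g, ρ i g ≠ 1)
    (hP : ∀ T, T ⊂ S → PC μ x T) (ha : NoPair x) (hb : NoAb x) {τ : ℝ} {m : ℤ}
    (hm : Tendsto (szT ρ x τ) (𝓝[>] 0) (𝓝 (-(m : ℝ)))) : m = 0 := by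
  by_contra hm0
  have hS : ∀ i, i ∉ S → ∀ g, ρ i g = 1 := by
    intro i hi
    by_contra hcon
    push Not at hcon
    exact hi ((hSn i).2 hcon)
  have hne : S.Nonempty := Finset.card_pos.1 (by omega)
  have hPe : ∀ j ∈ S, PC μ x (S.erase j) := fun j hj => hP _ (Finset.erase_ssubset hj)
  set r : ℝ := -(m : ℝ) with hr
  have h0 : (1 : ℝ) ≤ r ^ 2 := by
    rw [hr, neg_sq]
    have : 1 ≤ m ^ 2 := by
      have := Int.one_le_abs hm0
      rw [← sq_abs]
      nlinarith
    exact_mod_cast this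
  have key : ∀ U : Ultrafilter ℝ, (U : Filter ℝ) ≤ 𝓝[>] 0 → |r| = 1 ∧
      (M (nm K) U fun v => (pc ρ x v * ((nm K v : ℕ) : ℂ) ^ (-(τ * I : ℂ))).re) = r ∧
      ∀ j ∈ S, (M (nm K) U fun v => ‖df r (Af ρ x j) (Bf ρ x j τ) v‖ ^ 2) = 0 := by
    intro U hU
    obtain ⟨r', h1, h2, h3, h4⟩ := lim_data hρ hn hU hx hPe hS hne τ
    have h5 : r' = r := tendsto_nhds_unique h1 (hm.mono_left hU)
    subst h5
    exact ⟨(h4 h0).1, h2, (h4 h0).2⟩
  obtain ⟨V, hV⟩ := Ultrafilter.exists_le (𝓝[>] (0 : ℝ))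
  obtain ⟨k1, -, k3⟩ := key V hV
  -- all degrees are one
  have hdim : (∀ i, n i = 1) → False := by
    intro h
    obtain rfl : n = fun _ => 1 := funext h
    obtain ⟨j, hj⟩ := hne
    refine hb ρ (fun i => (hρ i).1) ⟨j, (hSn j).1 hj⟩ τ r k1 (null_of_M ?_ fun U hU => ?_)
    · refine ⟨1 + |r|, fun v => ?_⟩
      refine (norm_sub_le _ _).trans ?_
      rw [norm_mul, norm_q, norm_pc1, mul_one, Complex.norm_real, Real.norm_eq_abs]
    · have h1 := (key U hU).2.1
      have h2 := M_dist (t := fun v => pc ρ x v * ((nm K v : ℕ) : ℂ) ^ (-(τ * I : ℂ)))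
        (fun v => by rw [norm_mul, norm_q, norm_pc1, mul_one]) r hU
      rw [h1] at h2
      rw [h2]
      have h3 : r ^ 2 = 1 := by rw [← sq_abs, k1, one_pow]
      nlinarith
  have hout : ∀ i, i ∉ S → n i = 1 := fun i hi => dim_triv (hρ i).2 (hn i) (hS i hi)
  by_cases h3 : 3 ≤ S.card
  · refine hdim fun k => ?_
    by_cases hk : k ∈ S
    · obtain ⟨j, hj, hjk⟩ : ∃ j ∈ S, j ≠ k := by
        by_contra hcon
        push Not at hcon
        have : S ⊆ {k} := fun i hi => Finset.mem_singleton.2 (hcon i hi)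
        have := Finset.card_le_card this
        simp at this
        omega
      have h4 : ({j, k} : Finset ι) ⊂ S := by
        refine Finset.ssubset_iff_subset_ne.2 ⟨?_, fun h => ?_⟩
        · intro i hi
          rcases Finset.mem_insert.1 hi with h | h
          · rw [h]
            exact hj
          · rw [Finset.mem_singleton.1 h]
            exact hk
        · rw [← h, Finset.card_pair hjk] at h3
          omega
      exact dims_one hρ hn hV hx hjk.symm (hPe j hj) (hP _ h4) hS k1 (k3 j hj)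
    · exact hout k hk
  · obtain ⟨j, k, hjk, hSjk⟩ := Finset.card_eq_two.1 (show S.card = 2 by omega)
    have hjS : j ∈ S := by rw [hSjk]; simp
    have hB : ∀ v, Bf ρ x j τ v = chi (ρ k) (x k v) * ((nm K v : ℕ) : ℂ) ^ (-(τ * I : ℂ)) := by
      intro v
      unfold Bf
      rw [Finset.prod_eq_single k]
      · intro i hi hik
        have hiS : i ∉ S := by
          rw [hSjk]
          simp [Finset.ne_of_mem_erase hi, hik]
        rw [chi_triv (hS i hiS), hout i hiS, Nat.cast_one]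
      · intro h
        exact absurd (Finset.mem_erase.2 ⟨hjk.symm, Finset.mem_univ k⟩) h
    have hD : df r (Af ρ x j) (Bf ρ x j τ) = Dp (ρ j) (ρ k) (x j) (x k) τ r := by
      rw [df_eq]
      congr 1
      funext v
      exact hB v
    have hk3 : ∀ U : Ultrafilter ℝ, (U : Filter ℝ) ≤ 𝓝[>] 0 →
        (M (nm K) U fun v => ‖Dp (ρ j) (ρ k) (x j) (x k) τ r v‖ ^ 2) = 0 := by
      intro U hU
      rw [← hD]
      exact (key U hU).2.2 j hjS
    have hd := same_dim (hx j) (hx k) (hρ j).1 (hρ k).1 k1 hV (hk3 V hV)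
    by_cases hnj : n j = 1
    · refine hdim fun i => ?_
      by_cases hi : i ∈ S
      · rw [hSjk] at hi
        rcases Finset.mem_insert.1 hi with h | h
        · rw [h, hnj]
        · rw [Finset.mem_singleton.1 h, ← hd, hnj]
      · exact hout i hi
    · have hj2 : 2 ≤ n j := by
        have := hn j
        omega
      refine ha j k hjk (n j) (n k) (ρ j) (ρ k) (hρ j).1 (hρ j).2 (hρ k).1 (hρ k).2 hj2
        (hd ▸ hj2) τ r k1 (null_of_M ?_ hk3)
      rw [df_eq]
      exact Bc.df ⟨n j, fun v => norm_chi (ρ j) _⟩ ⟨n k, fun v => by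
        rw [norm_mul, norm_q, mul_one]
        exact norm_chi (ρ k) _⟩ r

/-- the average of a constant -/
theorem mn_const (c : ℂ) : Tendsto (mn fun _ : HeightOneSpectrum (𝓞 K) => c) atTop (𝓝 c) := by
  have h8 : Tendsto (fun N : ℕ => c) atTop (𝓝 c) := tendsto_const_nhds
  refine h8.congr' ?_
  filter_upwards [card_ev (K := K)] with N hN
  unfold mn
  rw [Finset.sum_const, Complex.real_smul, nsmul_eq_mul]
  push_cast
  have hN' : ((upto K N).card : ℂ) ≠ 0 := by exact_mod_cast hN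
  field_simp

/-- at most one nontrivial factor -/
theorem one_family {n : ι → ℕ} {ρ : ∀ i, G i →* Matrix.unitaryGroup (Fin (n i)) ℂ}
    (hρ : ∀ i, Continuous (ρ i) ∧ Schur (ρ i)) (hx : ∀ i, Law (x i) (μ i))
    {S : Finset ι} (hS1 : S.card ≤ 1) (hS : ∀ i, i ∉ S → ∀ g, ρ i g = 1) :
    Tendsto (mn fun v => pc ρ x v) atTop (𝓝 (∏ i, ∫ g, chi (ρ i) g ∂(μ i))) := by
  have hI : ∀ i, i ∉ S → ∫ g, chi (ρ i) g ∂(μ i) = n i := by
    intro i hi
    simp only [chi_triv (hS i hi)]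
    simp
  by_cases h0 : S = ∅
  · subst h0
    have e1 : (fun v => pc ρ x v) = fun _ => ∏ i, (n i : ℂ) := by
      funext v
      unfold pc
      exact Finset.prod_congr rfl fun i _ => chi_triv (hS i (Finset.notMem_empty i)) _
    rw [e1, Finset.prod_congr rfl fun i _ => hI i (Finset.notMem_empty i)]
    exact mn_const _
  · obtain ⟨j, hj⟩ := Finset.card_eq_one.1 (show S.card = 1 by
      have := Finset.card_pos.2 (Finset.nonempty_iff_ne_empty.2 h0)
      omega)
    have hjn : ∀ i ∈ Finset.univ.erase j, i ∉ S := by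
      intro i hi
      rw [hj, Finset.mem_singleton]
      exact Finset.ne_of_mem_erase hi
    have e1 : (fun v => pc ρ x v) = fun v =>
        (∏ i ∈ Finset.univ.erase j, (n i : ℂ)) * chi (ρ j) (x j v) := by
      funext v
      unfold pc
      rw [← Finset.mul_prod_erase Finset.univ (fun i => chi (ρ i) (x i v)) (Finset.mem_univ j),
        mul_comm]
      congr 1
      exact Finset.prod_congr rfl fun i hi => chi_triv (hS i (hjn i hi)) _
    have e2 : ∏ i, ∫ g, chi (ρ i) g ∂(μ i) =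
        (∏ i ∈ Finset.univ.erase j, (n i : ℂ)) * ∫ g, chi (ρ j) g ∂(μ j) := by
      rw [← Finset.mul_prod_erase Finset.univ (fun i => ∫ g, chi (ρ i) g ∂(μ i))
        (Finset.mem_univ j), mul_comm]
      congr 1
      exact Finset.prod_congr rfl fun i hi => hI i (hjn i hi)
    rw [e1, e2]
    have h3 := (law_c (hx j) (cont_chi (hρ j).1) (fun g h => chi_cls (ρ j) g h)).const_mul
      (∏ i ∈ Finset.univ.erase j, (n i : ℂ))
    refine h3.congr fun N => ?_
    rw [← mn_mul]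

/-- local continuations of the L-functions with at least two nontrivial factors -/
def Mero (x : ∀ i, HeightOneSpectrum (𝓞 K) → G i) : Prop :=
  ∀ (n : ι → ℕ) (ρ : ∀ i, G i →* Matrix.unitaryGroup (Fin (n i)) ℂ),
    (∀ i, n i ≠ 0) → (∀ i, Continuous (ρ i) ∧ Schur (ρ i)) →
    (∃ i j, i ≠ j ∧ (∃ g, ρ i g ≠ 1) ∧ ∃ g, ρ j g ≠ 1) →
    ∀ τ : ℝ, ∃ Λ : ℂ → ℂ, MeromorphicAt Λ (1 + τ * I) ∧
      ∀ᶠ s in 𝓝 ((1 : ℂ) + τ * I), (1 : ℝ) < s.re → Λ s = LT ρ x s

/-- **The induction.** -/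
theorem all_PC (hx : ∀ i, Law (x i) (μ i)) (hM : Mero x) (ha : NoPair x) (hb : NoAb x)
    (S : Finset ι) : PC μ x S := by
  classical
  induction S using Finset.strongInduction with
  | H S ih =>
    intro n ρ h1 h2
    by_cases h0 : ∃ i, n i = 0
    · obtain ⟨i, hi⟩ := h0
      have hz : ∀ g, chi (ρ i) g = 0 := by
        intro g
        have h3 := norm_chi (ρ i) g
        have h4 : ((n i : ℕ) : ℝ) = 0 := by rw [hi, Nat.cast_zero]
        exact norm_le_zero_iff.1 (h3.trans h4.le)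
      have e1 : (fun v => pc ρ x v) = fun _ => 0 := by
        funext v
        exact Finset.prod_eq_zero (Finset.mem_univ i) (hz _)
      have e2 : ∏ i, ∫ g, chi (ρ i) g ∂(μ i) = 0 :=
        Finset.prod_eq_zero (Finset.mem_univ i) (by simp only [hz]; simp)
      rw [e1, e2]
      exact mn_const 0
    · push Not at h0
      set T : Finset ι := Finset.univ.filter fun i => ∃ g, ρ i g ≠ 1 with hT
      have hTm : ∀ i, i ∈ T ↔ ∃ g, ρ i g ≠ 1 := by
        intro i
        rw [hT, Finset.mem_filter]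
        exact ⟨fun h => h.2, fun h => ⟨Finset.mem_univ i, h⟩⟩
      have hTS : T ⊆ S := by
        intro i hi
        by_contra hcon
        obtain ⟨g, hg⟩ := (hTm i).1 hi
        exact hg (h2 i hcon g)
      have hTn : ∀ i, i ∉ T → ∀ g, ρ i g = 1 := by
        intro i hi
        by_contra hcon
        push Not at hcon
        exact hi ((hTm i).2 hcon)
      by_cases hTe : T = S
      · by_cases hc : S.card ≤ 1
        · exact one_family h1 hx hc h2
        · have hS2 : 2 ≤ S.card := by omega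
          rw [hTe] at hTm
          obtain ⟨i, hi, j, hj, hij⟩ := Finset.one_lt_card.1 (show 1 < S.card by omega)
          have e2 : ∏ i, ∫ g, chi (ρ i) g ∂(μ i) = 0 :=
            Finset.prod_eq_zero (Finset.mem_univ i) (int_chi (h1 i).1 (h1 i).2 ((hTm i).1 hi))
          rw [e2]
          refine taub_LT fun τ => ?_
          obtain ⟨Λ, h5, h6⟩ := hM n ρ h0 h1 ⟨i, j, hij, (hTm i).1 hi, (hTm j).1 hj⟩ τ
          obtain ⟨m, h7, h8⟩ := order_LT h5 h6
          refine ⟨Λ, h5, h6, ?_⟩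
          rw [h7, order_zero h1 h0 hx hS2 hTm ih ha hb h8]
          rfl
      · exact ih T (Finset.ssubset_iff_subset_ne.2 ⟨hTS, hTe⟩) n ρ h1 hTn

end

end Pool.Agent.N210.JN
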