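import Pool.Agent.N210.JN.Ind

set_option autoImplicit false
set_option linter.unusedSectionVars false

/-!
# The orders of the products of three and more families
-/

namespace Pool.Agent.N210.JN

open Complex Filter Topology ComplexConjugate NumberField IsDedekindDomain MeasureTheory
  Pool.Agent.W540.BE Pool.Agent.TH553.RS Pool.Agent.TH553.ST Pool.Agent.H341R2

section

variable {H : Type} [Group H] [TopologicalSpace H] [IsTopologicalGroup H] [CompactSpace H]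
  [MeasurableSpace H] [BorelSpace H] {μ : Measure H} [IsProbabilityMeasure μ] [μ.IsHaarMeasure]
  {n : ℕ} {π : H →* Matrix.unitaryGroup (Fin n) ℂ}

/-- a character whose fourth moment is one -/
theorem dim_one (hc : Continuous π) (hs : Schur π) (hn : n ≠ 0)
    (h4 : ∫ g, ‖chi π g‖ ^ 2 * ‖chi π g‖ ^ 2 ∂μ = 1) : n = 1 := by
  by_contra hne
  have h1 := int_sq (μ := μ) hc hs hn
  have hcc : Continuous fun g => ‖chi π g‖ ^ 2 := (cont_chi hc).norm.pow 2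
  have h2 : ∫ g, (‖chi π g‖ ^ 2 - 1) ^ 2 ∂μ = 0 := by
    have hA : Integrable (fun g => ‖chi π g‖ ^ 2 * ‖chi π g‖ ^ 2) μ := intg (hcc.mul hcc)
    have hB : Integrable (fun g => 2 * ‖chi π g‖ ^ 2) μ := intg (continuous_const.mul hcc)
    have e : (fun g => (‖chi π g‖ ^ 2 - 1) ^ 2) =
        fun g => (‖chi π g‖ ^ 2 * ‖chi π g‖ ^ 2 - 2 * ‖chi π g‖ ^ 2) + 1 := by
      funext g
      ring
    have e1 : ∫ g, (‖chi π g‖ ^ 2 * ‖chi π g‖ ^ 2 - 2 * ‖chi π g‖ ^ 2) + 1 ∂μ =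
        (∫ g, (‖chi π g‖ ^ 2 * ‖chi π g‖ ^ 2 - 2 * ‖chi π g‖ ^ 2) ∂μ) + ∫ _, (1 : ℝ) ∂μ :=
      integral_add (hA.sub hB) (integrable_const 1)
    have e2 : ∫ g, (‖chi π g‖ ^ 2 * ‖chi π g‖ ^ 2 - 2 * ‖chi π g‖ ^ 2) ∂μ =
        (∫ g, ‖chi π g‖ ^ 2 * ‖chi π g‖ ^ 2 ∂μ) - ∫ g, 2 * ‖chi π g‖ ^ 2 ∂μ :=
      integral_sub hA hB
    rw [e, e1, e2, integral_const_mul, h4, h1]
    simp
    norm_num
  have h3 := int_pos (μ := μ) (f := fun g => (‖chi π g‖ ^ 2 - 1) ^ 2)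
    ((hcc.sub continuous_const).pow 2) (fun g => sq_nonneg _) (g₀ := 1) (by
      rw [chi_one, Complex.norm_natCast]
      have h5 : (2 : ℝ) ≤ n := by
        have : 2 ≤ n := by omega
        exact_mod_cast this
      have h6 : 0 < (n : ℝ) ^ 2 - 1 := by nlinarith
      positivity)
  linarith

/-- a trivial irreducible representation -/
theorem dim_triv (hs : Schur π) (hn : n ≠ 0) (ht : ∀ g, π g = 1) : n = 1 := by
  by_contra hne
  have h0 : 0 < n := by omega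
  have h1 : 1 < n := by omega
  obtain ⟨c, hc⟩ := hs (Matrix.single ⟨0, h0⟩ ⟨1, h1⟩ 1) fun g => by
    rw [ht]
    simp
  have h2 := congrFun (congrFun hc ⟨0, h0⟩) ⟨1, h1⟩
  rw [Matrix.single_apply_same, Matrix.smul_apply, Matrix.one_apply_ne (by simp)] at h2
  simp at h2

theorem norm_one1 (ψ : H →* Matrix.unitaryGroup (Fin 1) ℂ) (g : H) : ‖chi ψ g‖ = 1 := by
  have h1 := congrFun (congrFun (pi_star (π := ψ) g) 0) 0
  rw [Matrix.mul_apply, Fin.sum_univ_one, Matrix.conjTranspose_apply, Matrix.one_apply_eq] at h1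
  unfold chi
  rw [Matrix.trace_fin_one]
  have h2 := congrArg norm h1
  rw [norm_mul, norm_star, norm_one] at h2
  nlinarith [norm_nonneg ((ψ g : Matrix (Fin 1) (Fin 1) ℂ) 0 0)]

end

section

variable {P : Type*} {N : P → ℕ}

/-- weighted means of the squares in a relation -/
theorem edge_weight (hN : Sys N) {U : Ultrafilter ℝ} (hU : (U : Filter ℝ) ≤ 𝓝[>] 0) {t c : P → ℂ}
    (ht : Bc t) (hc : Bc c) {r : ℝ} (hr : |r| = 1)
    (h0 : (M N U fun p => ‖df r t c p‖ ^ 2) = 0) {φ : P → ℝ} (hφ : Bd φ) :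
    (M N U fun p => ‖t p‖ ^ 2 * φ p) = M N U fun p => ‖c p‖ ^ 2 * φ p := by
  have h1 := edge_norm hN hU ht hc hr h0
  have hd := ht.norm.sq.sub hc.norm.sq
  obtain ⟨C, hC⟩ := hφ
  have hφ : Bd φ := ⟨C, hC⟩
  have h2 : (M N U fun p => |C| * |‖t p‖ ^ 2 - ‖c p‖ ^ 2|) = 0 := by
    rw [M_const_mul hN hU hd.abs, h1, mul_zero]
  have h3 : (M N U fun p => |(‖t p‖ ^ 2 - ‖c p‖ ^ 2) * φ p|) = 0 := by
    refine M_zero_of_le hN hU (hd.mul hφ).abs (hd.abs.const_mul _) (fun p => abs_nonneg _)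
      (fun p => ?_) h2
    rw [abs_mul, mul_comm]
    exact mul_le_mul_of_nonneg_right ((hC p).trans (le_abs_self _)) (abs_nonneg _)
  have h4 : M N U (fun p => (‖t p‖ ^ 2 - ‖c p‖ ^ 2) * φ p) = 0 := by
    refine le_antisymm ?_ ?_
    · rw [← h3]
      exact M_mono hN hU (hd.mul hφ) (hd.mul hφ).abs fun p => le_abs_self _
    · have h6 := M_mono hN hU (hd.mul hφ).neg (hd.mul hφ).abs fun p => neg_le_abs _
      rw [h3, M_neg hN hU (hd.mul hφ)] at h6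
      linarith
  have e : (fun p => (‖t p‖ ^ 2 - ‖c p‖ ^ 2) * φ p) =
      fun p => ‖t p‖ ^ 2 * φ p - ‖c p‖ ^ 2 * φ p := by
    funext p
    ring
  rw [e, M_sub hN hU (ht.norm.sq.mul hφ) (hc.norm.sq.mul hφ)] at h4
  linarith

end

section

variable {K : Type} [Field K] [NumberField K]
variable {ι : Type} [Fintype ι] [DecidableEq ι] {G : ι → Type} [∀ i, Group (G i)]
  [∀ i, TopologicalSpace (G i)] [∀ i, IsTopologicalGroup (G i)] [∀ i, CompactSpace (G i)]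
  [∀ i, T2Space (G i)] [∀ i, SecondCountableTopology (G i)] [∀ i, MeasurableSpace (G i)]
  [∀ i, BorelSpace (G i)] {μ : ∀ i, Measure (G i)} [∀ i, IsProbabilityMeasure (μ i)]
  [∀ i, (μ i).IsHaarMeasure] {x : ∀ i, HeightOneSpectrum (𝓞 K) → G i}
  {n : ι → ℕ} {ρ : ∀ i, G i →* Matrix.unitaryGroup (Fin (n i)) ℂ}

/-- the product without the factor `j` -/
noncomputable def Bf (ρ : ∀ i, G i →* Matrix.unitaryGroup (Fin (n i)) ℂ)
    (x : ∀ i, HeightOneSpectrum (𝓞 K) → G i) (j : ι) (τ : ℝ) (v : HeightOneSpectrum (𝓞 K)) : ℂ :=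
  (∏ i ∈ Finset.univ.erase j, chi (ρ i) (x i v)) * ((nm K v : ℕ) : ℂ) ^ (-(τ * I : ℂ))

/-- the factor `j` -/
noncomputable def Af (ρ : ∀ i, G i →* Matrix.unitaryGroup (Fin (n i)) ℂ)
    (x : ∀ i, HeightOneSpectrum (𝓞 K) → G i) (j : ι) (v : HeightOneSpectrum (𝓞 K)) : ℂ :=
  chi (ρ j) (x j v)

theorem AB (j : ι) (τ : ℝ) (v : HeightOneSpectrum (𝓞 K)) :
    Af ρ x j v * Bf ρ x j τ v = pc ρ x v * ((nm K v : ℕ) : ℂ) ^ (-(τ * I : ℂ)) := by
  unfold Af Bf pc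
  rw [← mul_assoc, Finset.mul_prod_erase Finset.univ (fun i => chi (ρ i) (x i v))
    (Finset.mem_univ j)]

theorem Bc_A (j : ι) : Bc (Af ρ x j) := ⟨n j, fun v => norm_chi (ρ j) _⟩

theorem norm_B (j : ι) (τ : ℝ) (v : HeightOneSpectrum (𝓞 K)) :
    ‖Bf ρ x j τ v‖ = ∏ i ∈ Finset.univ.erase j, ‖chi (ρ i) (x i v)‖ := by
  unfold Bf
  rw [norm_mul, norm_cpow_I (nm_pos v), mul_one, norm_prod]

theorem norm_B_sq (j : ι) (τ : ℝ) (v : HeightOneSpectrum (𝓞 K)) :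
    ‖Bf ρ x j τ v‖ ^ 2 = ∏ i, if i = j then 1 else ‖chi (ρ i) (x i v)‖ ^ 2 := by
  rw [norm_B, ← Finset.prod_pow, ← Finset.mul_prod_erase Finset.univ _ (Finset.mem_univ j),
    if_pos rfl, one_mul]
  exact Finset.prod_congr rfl fun i hi => (if_neg (Finset.ne_of_mem_erase hi)).symm

theorem Bc_B (j : ι) (τ : ℝ) : Bc (Bf ρ x j τ) := by
  refine ⟨∏ i ∈ Finset.univ.erase j, (n i : ℝ), fun v => ?_⟩
  rw [norm_B]
  exact Finset.prod_le_prod (fun i _ => norm_nonneg _) fun i _ => norm_chi (ρ i) _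

variable (hρ : ∀ i, Continuous (ρ i) ∧ Schur (ρ i)) (hn : ∀ i, n i ≠ 0)
  {U : Ultrafilter ℝ} (hU : (U : Filter ℝ) ≤ 𝓝[>] 0)

include hρ hn hU

theorem M_A (hx : ∀ i, Law (x i) (μ i)) (j : ι) :
    (M (nm K) U fun v => ‖Af ρ x j v‖ ^ 2) = 1 := by
  unfold Af
  rw [M_law (hx j) hU (f := fun g => ‖chi (ρ j) g‖ ^ 2) ((cont_chi (hρ j).1).norm.pow 2)
    (fun g h => by rw [chi_cls]), int_sq (hρ j).1 (hρ j).2 (hn j)]

/-- the class functions -/
theorem cf_cont (w w' : ι → Prop) [DecidablePred w] [DecidablePred w'] (i : ι) :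
    Continuous fun g : G i => (if w i then ‖chi (ρ i) g‖ ^ 2 else 1) *
      (if w' i then ‖chi (ρ i) g‖ ^ 2 else 1) := by
  have hcc : Continuous fun g => ‖chi (ρ i) g‖ ^ 2 := (cont_chi (hρ i).1).norm.pow 2
  refine Continuous.mul ?_ ?_
  · by_cases h : w i
    · simp only [if_pos h]
      exact hcc
    · simp only [if_neg h]
      exact continuous_const
  · by_cases h : w' i
    · simp only [if_pos h]
      exact hcc
    · simp only [if_neg h]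
      exact continuous_const

/-- the means of products of squares -/
theorem M_ww {S : Finset ι} (h : PC μ x S) (w w' : ι → Prop) [DecidablePred w] [DecidablePred w']
    (hw : ∀ i, i ∉ S → w i → ∀ g, ρ i g = 1) (hw' : ∀ i, i ∉ S → w' i → ∀ g, ρ i g = 1) :
    (M (nm K) U fun v => ∏ i, ((if w i then ‖chi (ρ i) (x i v)‖ ^ 2 else 1) *
      (if w' i then ‖chi (ρ i) (x i v)‖ ^ 2 else 1))) =
      ∏ i, (if w i ∧ w' i then ∫ g, ‖chi (ρ i) g‖ ^ 2 * ‖chi (ρ i) g‖ ^ 2 ∂(μ i) else 1) := by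
  rw [h.mean (f := fun i g => (if w i then ‖chi (ρ i) g‖ ^ 2 else 1) *
      (if w' i then ‖chi (ρ i) g‖ ^ 2 else 1)) (fun i => cf_cont hρ hn hU w w' i)
      (fun i g k => by rw [chi_cls]) (fun i hi g g' => by
        have h1 : (if w i then ‖chi (ρ i) g‖ ^ 2 else 1) =
            (if w i then ‖chi (ρ i) g'‖ ^ 2 else 1) := by
          by_cases h2 : w i
          · rw [chi_triv (hw i hi h2), chi_triv (hw i hi h2)]
          · rw [if_neg h2, if_neg h2]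
        have h1' : (if w' i then ‖chi (ρ i) g‖ ^ 2 else 1) =
            (if w' i then ‖chi (ρ i) g'‖ ^ 2 else 1) := by
          by_cases h2 : w' i
          · rw [chi_triv (hw' i hi h2), chi_triv (hw' i hi h2)]
          · rw [if_neg h2, if_neg h2]
        rw [h1, h1']) hU]
  refine Finset.prod_congr rfl fun i _ => ?_
  have h1 := int_sq (μ := μ i) (hρ i).1 (hρ i).2 (hn i)
  by_cases h2 : w i
  · by_cases h3 : w' i
    · simp [h2, h3]
    · simp [h2, h3, h1]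
  · by_cases h3 : w' i
    · simp [h2, h3, h1]
    · simp [h2, h3]

theorem M_B {S : Finset ι} (j : ι) (h : PC μ x (S.erase j)) (hS : ∀ i, i ∉ S → ∀ g, ρ i g = 1)
    (τ : ℝ) : (M (nm K) U fun v => ‖Bf ρ x j τ v‖ ^ 2) = 1 := by
  have h1 := M_ww hρ hn hU h (fun i => i ≠ j) (fun _ => False)
    (fun i hi h2 => hS i fun h3 => hi (Finset.mem_erase.2 ⟨h2, h3⟩)) (fun _ _ h => h.elim)
  have e : (fun v => ‖Bf ρ x j τ v‖ ^ 2) = fun v =>
      ∏ i, ((if i ≠ j then ‖chi (ρ i) (x i v)‖ ^ 2 else 1) *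
      (if False then ‖chi (ρ i) (x i v)‖ ^ 2 else 1)) := by
    funext v
    rw [norm_B_sq]
    refine Finset.prod_congr rfl fun i _ => ?_
    by_cases h2 : i = j
    · simp [h2]
    · simp [h2]
  rw [e, h1]
  simp

/-- the fourth moment of another factor -/
theorem M_Bk {S : Finset ι} {j k : ι} (hkj : k ≠ j) (h : PC μ x (S.erase j))
    (hS : ∀ i, i ∉ S → ∀ g, ρ i g = 1) (τ : ℝ) :
    (M (nm K) U fun v => ‖Bf ρ x j τ v‖ ^ 2 * ‖chi (ρ k) (x k v)‖ ^ 2) =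
      ∫ g, ‖chi (ρ k) g‖ ^ 2 * ‖chi (ρ k) g‖ ^ 2 ∂(μ k) := by
  have h1 := M_ww hρ hn hU h (fun i => i ≠ j) (fun i => i = k)
    (fun i hi h2 => hS i fun h3 => hi (Finset.mem_erase.2 ⟨h2, h3⟩))
    (fun i hi h2 => hS i fun h3 => hi (Finset.mem_erase.2 ⟨h2 ▸ hkj, h3⟩))
  have e : (fun v => ‖Bf ρ x j τ v‖ ^ 2 * ‖chi (ρ k) (x k v)‖ ^ 2) = fun v =>
      ∏ i, ((if i ≠ j then ‖chi (ρ i) (x i v)‖ ^ 2 else 1) *
      (if i = k then ‖chi (ρ i) (x i v)‖ ^ 2 else 1)) := by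
    funext v
    rw [Finset.prod_mul_distrib, norm_B_sq]
    congr 1
    · refine Finset.prod_congr rfl fun i _ => ?_
      by_cases h2 : i = j
      · simp [h2]
      · simp [h2]
    · rw [Finset.prod_ite_eq' Finset.univ k fun i => ‖chi (ρ i) (x i v)‖ ^ 2,
        if_pos (Finset.mem_univ k)]
  rw [e, h1]
  have e2 : ∀ i, (if i ≠ j ∧ i = k then ∫ g, ‖chi (ρ i) g‖ ^ 2 * ‖chi (ρ i) g‖ ^ 2 ∂(μ i)
      else 1) = if i = k then ∫ g, ‖chi (ρ i) g‖ ^ 2 * ‖chi (ρ i) g‖ ^ 2 ∂(μ i) else 1 := by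
    intro i
    by_cases h2 : i = k
    · subst h2
      simp [hkj]
    · simp [h2]
  rw [Finset.prod_congr rfl fun i _ => e2 i, Finset.prod_ite_eq' Finset.univ k fun i =>
    ∫ g, ‖chi (ρ i) g‖ ^ 2 * ‖chi (ρ i) g‖ ^ 2 ∂(μ i), if_pos (Finset.mem_univ k)]

/-- the mixed moment of two factors -/
theorem M_Ak {j k : ι} (hkj : k ≠ j) (h : PC μ x {j, k}) :
    (M (nm K) U fun v => ‖Af ρ x j v‖ ^ 2 * ‖chi (ρ k) (x k v)‖ ^ 2) = 1 := by
  have h1 := M_ww hρ hn hU h (fun i => i = j) (fun i => i = k)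
    (fun i hi h2 => absurd (by rw [h2]; simp) hi) (fun i hi h2 => absurd (by rw [h2]; simp) hi)
  have e : (fun v => ‖Af ρ x j v‖ ^ 2 * ‖chi (ρ k) (x k v)‖ ^ 2) = fun v =>
      ∏ i, ((if i = j then ‖chi (ρ i) (x i v)‖ ^ 2 else 1) *
      (if i = k then ‖chi (ρ i) (x i v)‖ ^ 2 else 1)) := by
    funext v
    rw [Finset.prod_mul_distrib, Finset.prod_ite_eq' Finset.univ k fun i =>
      ‖chi (ρ i) (x i v)‖ ^ 2, if_pos (Finset.mem_univ k), Finset.prod_ite_eq' Finset.univ j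
      fun i => ‖chi (ρ i) (x i v)‖ ^ 2, if_pos (Finset.mem_univ j)]
    rfl
  rw [e, h1]
  refine Finset.prod_eq_one fun i _ => if_neg ?_
  rintro ⟨h2, h3⟩
  exact hkj (h3.symm.trans h2)

/-- **Three and more families.** -/
theorem dims_one (hx : ∀ i, Law (x i) (μ i)) {S : Finset ι} {j k : ι} (hkj : k ≠ j)
    (h : PC μ x (S.erase j)) (h' : PC μ x {j, k}) (hS : ∀ i, i ∉ S → ∀ g, ρ i g = 1) {τ r : ℝ}
    (hr : |r| = 1) (h0 : (M (nm K) U fun v => ‖df r (Af ρ x j) (Bf ρ x j τ) v‖ ^ 2) = 0) :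
    n k = 1 := by
  have hN := sysF K
  have h1 := edge_weight hN hU (Bc_A j) (Bc_B j τ) hr h0
    (φ := fun v => ‖chi (ρ k) (x k v)‖ ^ 2) (Bc.norm ⟨n k, fun v => norm_chi (ρ k) _⟩).sq
  rw [M_Ak hρ hn hU hkj h', M_Bk hρ hn hU hkj h hS τ] at h1
  exact dim_one (hρ k).1 (hρ k).2 (hn k) h1.symm

/-- the data along an ultrafilter -/
theorem lim_data (hx : ∀ i, Law (x i) (μ i)) {S : Finset ι}
    (hP : ∀ j ∈ S, PC μ x (S.erase j)) (hS : ∀ i, i ∉ S → ∀ g, ρ i g = 1) (hne : S.Nonempty)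
    (τ : ℝ) : ∃ r : ℝ, Tendsto (szT ρ x τ) U (𝓝 r) ∧
      (M (nm K) U fun v => (pc ρ x v * ((nm K v : ℕ) : ℂ) ^ (-(τ * I : ℂ))).re) = r ∧
      r ^ 2 ≤ 1 ∧ (1 ≤ r ^ 2 → |r| = 1 ∧ ∀ j ∈ S,
        (M (nm K) U fun v => ‖df r (Af ρ x j) (Bf ρ x j τ) v‖ ^ 2) = 0) := by
  have hN := sysF K
  set r := M (nm K) U fun v => (pc ρ x v * ((nm K v : ℕ) : ℂ) ^ (-(τ * I : ℂ))).re with hr
  have hr' : ∀ j, (M (nm K) U fun v => (Af ρ x j v * Bf ρ x j τ v).re) = r := by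
    intro j
    rw [hr]
    congr 1
    funext v
    rw [AB]
  have hbd : Bd fun v => (pc ρ x v * ((nm K v : ℕ) : ℂ) ^ (-(τ * I : ℂ))).re := by
    obtain ⟨j, -⟩ := hne
    have h1 := ((Bc_A (ρ := ρ) (x := x) j).mul (Bc_B (ρ := ρ) (x := x) j τ)).re
    simp only [AB] at h1
    exact h1
  refine ⟨r, ?_, rfl, ?_, fun h4 => ?_⟩
  · have h5 := M_lim hN hU hbd
    have h6 := h5.sub ((size_LT ρ x τ).2.mono_left hU)
    rw [sub_zero] at h6
    refine h6.congr fun ε => ?_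
    unfold szT
    ring
  · obtain ⟨j, hj⟩ := hne
    have h1 := M_A hρ hn hU hx j
    have h2 := M_B hρ hn hU j (hP j hj) hS τ
    have h3 := edge_le hN hU (Bc_A j) (Bc_B j τ) h1.le h2.le
    rw [hr' j] at h3
    exact h3
  · obtain ⟨j₀, hj₀⟩ := hne
    have h30 := edge_le hN hU (Bc_A j₀) (Bc_B j₀ τ) (M_A hρ hn hU hx j₀).le
      (M_B hρ hn hU j₀ (hP j₀ hj₀) hS τ).le
    rw [hr' j₀] at h30
    refine ⟨?_, fun j hj => ?_⟩
    · have h6 : r ^ 2 = 1 := le_antisymm h30 h4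
      have h7 : |r| ^ 2 = 1 := by rw [sq_abs]; exact h6
      exact (pow_eq_one_iff_of_nonneg (abs_nonneg _) two_ne_zero).1 h7
    · exact edge_eq hN hU (Bc_A j) (Bc_B j τ) (M_A hρ hn hU hx j).le
        (M_B hρ hn hU j (hP j hj) hS τ).le (hr' j) h4

end

end Pool.Agent.N210.JN
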