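import Pool.Agent.N210.JN.Det

set_option autoImplicit false
set_option linter.unusedSectionVars false

/-!
# Subfamilies, and the bounds without continuation
-/

namespace Pool.Agent.N210.JN

open Complex Filter Topology ComplexConjugate NumberField IsDedekindDomain MeasureTheory
  Pool.Agent.W540.BE Pool.Agent.TH553.RS Pool.Agent.TH553.ST Pool.Agent.H341R2

section

variable {K : Type} [Field K] [NumberField K]
variable {ι : Type} [Fintype ι] [DecidableEq ι] {G : ι → Type} [∀ i, Group (G i)]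
  [∀ i, TopologicalSpace (G i)] [∀ i, IsTopologicalGroup (G i)] [∀ i, CompactSpace (G i)]
  [∀ i, T2Space (G i)] [∀ i, SecondCountableTopology (G i)] [∀ i, MeasurableSpace (G i)]
  [∀ i, BorelSpace (G i)] {μ : ∀ i, Measure (G i)} [∀ i, IsProbabilityMeasure (μ i)]
  [∀ i, (μ i).IsHaarMeasure] {x : ∀ i, HeightOneSpectrum (𝓞 K) → G i}

/-- the family without the member `j` -/
theorem PC_of_sub {j : ι} (h : JL (fun k : {i // i ≠ j} => μ k) (fun k : {i // i ≠ j} => x k)) :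
    PC μ x (Finset.univ.erase j) := by
  intro n ρ hρ hj
  have hj' : ∀ g, ρ j g = 1 := hj j (Finset.notMem_erase j _)
  have h1 := PC_of_joint h (fun k : {i // i ≠ j} => n k) (fun k : {i // i ≠ j} => ρ k)
    (fun k => hρ k) fun k hk => absurd (Finset.mem_univ k) hk
  have e : ∀ f : ι → ℂ, ∏ i, f i = f j * ∏ k : {i // i ≠ j}, f k := by
    intro f
    rw [← Finset.mul_prod_erase Finset.univ f (Finset.mem_univ j)]
    congr 1
    refine Finset.prod_subtype _ (fun i => ?_) f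
    simp
  have e1 : (fun v => pc ρ x v) = fun v => (n j : ℂ) *
      pc (fun k : {i // i ≠ j} => ρ k) (fun k : {i // i ≠ j} => x k) v := by
    funext v
    unfold pc
    rw [e, chi_triv hj']
  have e2 : ∏ i, ∫ g, chi (ρ i) g ∂(μ i) = (n j : ℂ) *
      ∏ k : {i // i ≠ j}, ∫ g, chi (ρ k) g ∂(μ k) := by
    rw [e]
    congr 1
    simp only [chi_triv hj']
    simp
  rw [e1, e2]
  refine (h1.const_mul (n j : ℂ)).congr fun N => ?_
  rw [← mn_mul]

/-- **Bounds without continuation.** -/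
theorem size_le {n : ι → ℕ} {ρ : ∀ i, G i →* Matrix.unitaryGroup (Fin (n i)) ℂ}
    (hρ : ∀ i, Continuous (ρ i) ∧ Schur (ρ i)) (hn : ∀ i, n i ≠ 0) (hx : ∀ i, Law (x i) (μ i))
    (hne : Nonempty ι) (hP : ∀ j, PC μ x (Finset.univ.erase j)) (τ : ℝ) {η : ℝ} (hη : 0 < η) :
    ∀ᶠ ε in 𝓝[>] (0 : ℝ), |szT ρ x τ ε| ≤ 1 + η := by
  refine eventually_of_ultra fun U hU => ?_
  obtain ⟨r, h1, -, h2, -⟩ := lim_data hρ hn hU hx (S := Finset.univ) (fun j _ => hP j)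
    (fun i hi => absurd (Finset.mem_univ i) hi) Finset.univ_nonempty τ
  have h3 : |r| ≤ 1 := by
    rw [← sq_abs] at h2
    exact (pow_le_one_iff_of_nonneg (abs_nonneg _) two_ne_zero).1 h2
  exact (h1.abs.eventually_lt_const (lt_of_le_of_lt h3 (by linarith))).mono fun ε hε => hε.le

theorem size_lt {n : ι → ℕ} {ρ : ∀ i, G i →* Matrix.unitaryGroup (Fin (n i)) ℂ}
    (hρ : ∀ i, Continuous (ρ i) ∧ Schur (ρ i)) (hn : ∀ i, n i ≠ 0) (hx : ∀ i, Law (x i) (μ i))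
    (h3 : 3 ≤ Fintype.card ι) (hP : ∀ j, PC μ x (Finset.univ.erase j)) {k : ι} (hk : n k ≠ 1)
    (τ : ℝ) : ∃ δ : ℝ, 0 < δ ∧ ∀ᶠ ε in 𝓝[>] (0 : ℝ), |szT ρ x τ ε| ≤ 1 - δ := by
  have hcard : (Finset.univ : Finset ι).card = Fintype.card ι := rfl
  refine unif_lt fun U hU => ?_
  obtain ⟨r, h1, -, -, h2⟩ := lim_data hρ hn hU hx (S := Finset.univ) (fun j _ => hP j)
    (fun i hi => absurd (Finset.mem_univ i) hi) ⟨k, Finset.mem_univ k⟩ τ
  refine ⟨r, h1, ?_⟩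
  by_contra hcon
  push Not at hcon
  have h4 : 1 ≤ r ^ 2 := by
    rw [← sq_abs]
    exact one_le_pow₀ hcon
  obtain ⟨h5, h6⟩ := h2 h4
  obtain ⟨j, hjk⟩ : ∃ j, j ≠ k := by
    by_contra hc
    push Not at hc
    have : (Finset.univ : Finset ι) ⊆ {k} := fun i _ => Finset.mem_singleton.2 (hc i)
    have := Finset.card_le_card this
    simp at this
    omega
  obtain ⟨l, hl⟩ : ∃ l, l ∉ ({j, k} : Finset ι) := by
    by_contra hc
    push Not at hc
    have h7 := Finset.card_le_card (fun i _ => hc i : (Finset.univ : Finset ι) ⊆ {j, k})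
    rw [Finset.card_pair hjk] at h7
    omega
  have hjk2 : PC μ x {j, k} := (hP l).mono fun i hi =>
    Finset.mem_erase.2 ⟨fun h => hl (h ▸ hi), Finset.mem_univ i⟩
  exact hk (dims_one hρ hn hU hx hjk.symm (hP j) hjk2
    (fun i hi => absurd (Finset.mem_univ i) hi) h5 (h6 j (Finset.mem_univ j)))

/-- the order and the relation -/
theorem order_iff {n : ι → ℕ} {ρ : ∀ i, G i →* Matrix.unitaryGroup (Fin (n i)) ℂ}
    (hρ : ∀ i, Continuous (ρ i) ∧ Schur (ρ i)) (hn : ∀ i, n i ≠ 0) (hx : ∀ i, Law (x i) (μ i))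
    (hne : Nonempty ι) (hP : ∀ j, PC μ x (Finset.univ.erase j)) {τ : ℝ} {m : ℤ}
    (hm : Tendsto (szT ρ x τ) (𝓝[>] 0) (𝓝 (-(m : ℝ)))) :
    |m| ≤ 1 ∧ ∀ j : ι, ∀ c : ℝ, |c| = 1 → (-(m : ℝ) = c ↔ Null (df c (Af ρ x j) (Bf ρ x j τ))) := by
  have hN := sysF K
  have hd := fun (U : Ultrafilter ℝ) (hU : (U : Filter ℝ) ≤ 𝓝[>] 0) =>
    lim_data hρ hn hU hx (S := Finset.univ) (fun j _ => hP j)
    (fun i hi => absurd (Finset.mem_univ i) hi) Finset.univ_nonempty τ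
  obtain ⟨V, hV⟩ := Ultrafilter.exists_le (𝓝[>] (0 : ℝ))
  have hr : ∀ (U : Ultrafilter ℝ) (hU : (U : Filter ℝ) ≤ 𝓝[>] 0),
      (M (nm K) U fun v => (pc ρ x v * ((nm K v : ℕ) : ℂ) ^ (-(τ * I : ℂ))).re) = -(m : ℝ) ∧
      (-(m : ℝ)) ^ 2 ≤ 1 ∧ (1 ≤ (-(m : ℝ)) ^ 2 → ∀ j,
        (M (nm K) U fun v => ‖df (-(m : ℝ)) (Af ρ x j) (Bf ρ x j τ) v‖ ^ 2) = 0) := by
    intro U hU
    obtain ⟨r, h1, h2, h3, h4⟩ := hd U hU
    have h5 : r = -(m : ℝ) := tendsto_nhds_unique h1 (hm.mono_left hU)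
    rw [← h5]
    exact ⟨h2, h3, fun h j => (h4 h).2 j (Finset.mem_univ j)⟩
  refine ⟨?_, fun j c hc => ⟨fun h => ?_, fun h => ?_⟩⟩
  · have h1 := (hr V hV).2.1
    rw [neg_sq] at h1
    have h2 : m ^ 2 ≤ 1 := by exact_mod_cast h1
    exact (sq_le_one_iff_abs_le_one m).1 h2
  · rw [← h]
    refine null_of_M (Bc.df (Bc_A j) (Bc_B j τ) _) fun U hU => (hr U hU).2.2 ?_ j
    rw [h, ← sq_abs, hc, one_pow]
  · have h1 := M_of_null (Bc.df (Bc_A j) (Bc_B j τ) c) h hV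
    rw [M_df hN hV (Bc_A j) (Bc_B j τ), M_A hρ hn hV hx j,
      M_B hρ hn hV j (hP j) (fun i hi => absurd (Finset.mem_univ i) hi) τ] at h1
    have h2 : (M (nm K) V fun v => (Af ρ x j v * Bf ρ x j τ v).re) = -(m : ℝ) := by
      rw [← (hr V hV).1]
      congr 1
      funext v
      rw [AB]
    rw [h2] at h1
    have h3 : c ^ 2 = 1 := by rw [← sq_abs, hc, one_pow]
    have h4 : c * (-(m : ℝ)) = 1 := by linarith
    calc -(m : ℝ) = c ^ 2 * (-(m : ℝ)) := by rw [h3, one_mul]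
      _ = c * (c * (-(m : ℝ))) := by ring
      _ = c := by rw [h4, mul_one]

/-- no relations in the strong form -/
def NoPairS (μ : ∀ i, Measure (G i)) (x : ∀ i, HeightOneSpectrum (𝓞 K) → G i) : Prop :=
  ∀ i j : ι, i ≠ j →
  ∀ (n : ℕ) (π : G i →* Matrix.unitaryGroup (Fin n) ℂ)
    (π' : G j →* Matrix.unitaryGroup (Fin n) ℂ), Continuous π → Schur π → Continuous π' →
    Schur π' → 2 ≤ n →
    (∀ k : ℕ, ∫ g, (‖chi π g‖ ^ 2) ^ k ∂(μ i) = ∫ g, (‖chi π' g‖ ^ 2) ^ k ∂(μ j)) →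
    ∀ τ r : ℝ, |r| = 1 → (τ ≠ 0 → ∀ a : ℕ, a ≠ 0 → ∫ g, chi π g ^ a ∂(μ i) = 0) →
    ¬ Null (Dp π π' (x i) (x j) τ r)

theorem noPair_of_strong (hx : ∀ i, Law (x i) (μ i)) (h : NoPairS μ x) : NoPair x := by
  intro i j hij n n' π π' hc hs hc' hs' hn hn' τ r hr hnull
  have hN := sysF K
  obtain ⟨V, hV⟩ := Ultrafilter.exists_le (𝓝[>] (0 : ℝ))
  have hb : Bc fun v => chi π (x i v) := ⟨n, fun v => norm_chi π _⟩
  have hb' : Bc fun v => chi π' (x j v) * ((nm K v : ℕ) : ℂ) ^ (-(τ * I : ℂ)) :=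
    ⟨n', fun v => by
      rw [norm_mul, norm_q, mul_one]
      exact norm_chi π' _⟩
  have hDb : Bc (Dp π π' (x i) (x j) τ r) := by
    rw [df_eq]
    exact hb.df hb' r
  have h0 := M_of_null hDb hnull hV
  have hd := same_dim (hx i) (hx j) hc hc' hr hV h0
  subst hd
  refine h i j hij n π π' hc hs hc' hs' hn (fun a => ?_) τ r hr (fun hτ a ha => ?_) hnull
  · rw [df_eq] at h0
    have h1 := edge_mom hN hV hb hb' hr h0 a
    simp only [norm_mul, norm_q, mul_one] at h1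
    rw [M_pow (hx i) hc hV, M_pow (hx j) hc' hV] at h1
    exact h1
  · obtain ⟨c, h1, -⟩ := int_pow_real (μ := μ i) hc a
    rw [h1, height_zero (hx i) (hx j) hc hc' hr hτ hV h0 ha h1]
    simp

theorem strong_of_noPair (h : NoPair x) : NoPairS μ x :=
  fun i j hij n π π' hc hs hc' hs' hn _ τ r hr _ => h i j hij n n π π' hc hs hc' hs' hn hn τ r hr

end

end Pool.Agent.N210.JN
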